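import Mathlib

/-! Points of a box in residue classes. -/

set_option autoImplicit false

open Finset

namespace Pool.Agent.V5helper58.TW

theorem card_class {q : ℕ} (hq : 0 < q) (M : ℕ) (c : ZMod q) :
    ((Finset.Icc 1 (M * q)).filter fun t : ℕ => (t : ZMod q) = c).card = M := by
  haveI : NeZero q := ⟨hq.ne'⟩
  have h1 : ((Finset.Icc 1 (M * q)).filter fun t : ℕ => (t : ZMod q) = c) =
      ((Finset.Ioc 0 (M * q)).filter fun t : ℕ => t ≡ c.val [MOD q]) := by
    ext t
    simp only [Finset.mem_filter, Finset.mem_Icc, Finset.mem_Ioc]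
    have h2 : ((t : ZMod q) = c) ↔ t ≡ c.val [MOD q] := by
      rw [← ZMod.natCast_eq_natCast_iff, ZMod.natCast_zmod_val]
    rw [h2]
    constructor <;> rintro ⟨⟨h3, h4⟩, h5⟩ <;> exact ⟨⟨by omega, h4⟩, h5⟩
  rw [h1]
  have h2 := Nat.Ioc_filter_modEq_card 0 (M * q) hq c.val
  have hq' : (q : ℚ) ≠ 0 := by exact_mod_cast hq.ne'
  have h3 : (((M * q : ℕ) : ℚ) - (c.val : ℚ)) / q = ((0 : ℕ) - (c.val : ℚ)) / q + (M : ℤ) := by
    field_simp
    push_cast
    ring
  rw [h3, Int.floor_add_intCast] at h2
  have h4 : (((0 : ℕ) : ℚ) - (c.val : ℚ)) / q = (((0 : ℕ) : ℚ) - (c.val : ℚ)) / q := rfl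
  rw [add_sub_cancel_left, max_eq_left (by positivity)] at h2
  exact_mod_cast h2

section grp

variable {ι : Type*} [Fintype ι] [DecidableEq ι] {H : Type*} [AddCommGroup H]

/-- the homomorphism from vectors modulo `q` -/
noncomputable def Phi (ω : ι → H) {q : ℕ} (hqH : ∀ h : H, (q : ℤ) • h = 0) : (ι → ZMod q) →+ H :=
  ∑ i, (ZMod.lift q ⟨zmultiplesHom H (ω i), by
    rw [zmultiplesHom_apply]; exact hqH _⟩).comp (Pi.evalAddMonoidHom (fun _ => ZMod q) i)

theorem Phi_coe (ω : ι → H) {q : ℕ} (hqH : ∀ h : H, (q : ℤ) • h = 0) (x : ι → ℤ) :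
    Phi ω hqH (fun i => (x i : ZMod q)) = ∑ i, x i • ω i := by
  rw [Phi, AddMonoidHom.finsetSum_apply]
  refine Finset.sum_congr rfl fun i _ => ?_
  rw [AddMonoidHom.comp_apply, Pi.evalAddMonoidHom_apply, ZMod.lift_coe, zmultiplesHom_apply]

variable [Fintype H] [DecidableEq H]

/-- the number of vectors modulo `q` with a value in `B` -/
theorem card_mod (ω : ι → H) (hω : ∀ h : H, ∃ c : ι → ℤ, ∑ i, c i • ω i = h) {q : ℕ} (hq : 0 < q)
    [NeZero q] (hqH : ∀ h : H, (q : ℤ) • h = 0) (B : Finset H) :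
    ((Finset.univ.filter fun y : ι → ZMod q => Phi ω hqH y ∈ B).card : ℝ) =
      (q : ℝ) ^ Fintype.card ι * (B.card / Fintype.card H) := by
  classical
  have hsurj : Function.Surjective (Phi ω hqH) := by
    intro h
    obtain ⟨c, hc⟩ := hω h
    exact ⟨fun i => (c i : ZMod q), by rw [Phi_coe, hc]⟩
  obtain ⟨m, hm⟩ : ∃ m : ℕ, m = (Finset.univ.filter fun y : ι → ZMod q =>
      Phi ω hqH y = 0).card := ⟨_, rfl⟩
  have hfib : ∀ h : H, (Finset.univ.filter fun y : ι → ZMod q => Phi ω hqH y = h).card = m := by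
    intro h
    obtain ⟨y₀, hy₀⟩ := hsurj h
    rw [hm]
    refine Finset.card_bij' (fun y _ => y - y₀) (fun y _ => y + y₀) ?_ ?_ ?_ ?_
    · intro y hy
      simp only [Finset.mem_filter, Finset.mem_univ, true_and] at hy ⊢
      rw [map_sub, hy, hy₀, sub_self]
    · intro y hy
      simp only [Finset.mem_filter, Finset.mem_univ, true_and] at hy ⊢
      rw [map_add, hy, hy₀, zero_add]
    · intro y _
      simp
    · intro y _
      simp
  have hcount : ∀ B : Finset H, (Finset.univ.filter fun y : ι → ZMod q => Phi ω hqH y ∈ B).card =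
      B.card * m := by
    intro B
    rw [Finset.card_eq_sum_card_fiberwise (f := fun y => Phi ω hqH y) (t := B)
      (fun y hy => by
        have : y ∈ (Finset.univ.filter fun y : ι → ZMod q => Phi ω hqH y ∈ B) := hy
        exact (Finset.mem_filter.1 this).2)]
    rw [Finset.sum_congr rfl (g := fun _ => m)]
    · rw [Finset.sum_const, smul_eq_mul]
    · intro h hh
      rw [← hfib h]
      congr 1
      ext y
      simp only [Finset.mem_filter, Finset.mem_univ, true_and]
      constructor
      · exact fun h => h.2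
      · exact fun h' => ⟨by rw [h']; exact hh, h'⟩
  have htot := hcount Finset.univ
  have h1 : (Finset.univ.filter fun y : ι → ZMod q => Phi ω hqH y ∈ (Finset.univ : Finset H)) =
      Finset.univ := by
    ext y; simp
  rw [h1, Finset.card_univ, Finset.card_univ, Fintype.card_fun, ZMod.card] at htot
  rw [hcount B]
  have hH : (0 : ℝ) < Fintype.card H := by exact_mod_cast Fintype.card_pos
  have h2 : (q : ℝ) ^ Fintype.card ι = Fintype.card H * m := by exact_mod_cast htot
  rw [h2]
  push_cast
  field_simp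

/-- **Points of a box.** -/
theorem box_count (ω : ι → H) (hω : ∀ h : H, ∃ c : ι → ℤ, ∑ i, c i • ω i = h) {q : ℕ} (hq : 0 < q)
    (hqH : ∀ h : H, (q : ℤ) • h = 0) {X : ℕ} (hX : q ≤ X) (B : Finset H) :
    (((Fintype.piFinset fun _ : ι => Finset.Icc 1 X).filter
      fun x : ι → ℕ => ∑ i, x i • ω i ∈ B).card : ℝ) ≤
      (2 * X) ^ Fintype.card ι * (B.card / Fintype.card H) := by
  classical
  haveI : NeZero q := ⟨hq.ne'⟩
  obtain ⟨M, hM⟩ : ∃ M : ℕ, M = X / q + 1 := ⟨_, rfl⟩
  have hMX : X ≤ M * q := by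
    rw [hM]
    have := Nat.div_add_mod X q
    have := Nat.mod_lt X hq
    nlinarith
  have hMX' : M * q ≤ 2 * X := by
    rw [hM]
    have := Nat.div_mul_le_self X q
    nlinarith
  have h1 : ((Fintype.piFinset fun _ : ι => Finset.Icc 1 X).filter
      fun x : ι → ℕ => ∑ i, x i • ω i ∈ B).card ≤
      ((Fintype.piFinset fun _ : ι => Finset.Icc 1 (M * q)).filter
      fun x : ι → ℕ => ∑ i, x i • ω i ∈ B).card := by
    apply Finset.card_le_card
    apply Finset.filter_subset_filter
    apply Fintype.piFinset_subset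
    intro _
    exact Finset.Icc_subset_Icc le_rfl hMX
  have h2 : ((Fintype.piFinset fun _ : ι => Finset.Icc 1 (M * q)).filter
      fun x : ι → ℕ => ∑ i, x i • ω i ∈ B).card =
      (Finset.univ.filter fun y : ι → ZMod q => Phi ω hqH y ∈ B).card *
        M ^ Fintype.card ι := by
    rw [Finset.card_eq_sum_card_fiberwise (f := fun x : ι → ℕ => fun i => (x i : ZMod q))
      (t := Finset.univ.filter fun y : ι → ZMod q => Phi ω hqH y ∈ B)]
    · rw [Finset.sum_congr rfl (g := fun _ => M ^ Fintype.card ι)]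
      · rw [Finset.sum_const, smul_eq_mul]
      · intro y hy
        have hy' : Phi ω hqH y ∈ B := (Finset.mem_filter.1 hy).2
        have h3 : (((Fintype.piFinset fun _ : ι => Finset.Icc 1 (M * q)).filter
            fun x : ι → ℕ => ∑ i, x i • ω i ∈ B).filter
            fun x : ι → ℕ => (fun i => (x i : ZMod q)) = y) =
            Fintype.piFinset fun i : ι =>
              (Finset.Icc 1 (M * q)).filter fun t : ℕ => (t : ZMod q) = y i := by
          ext x
          simp only [Finset.mem_filter, Fintype.mem_piFinset]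
          constructor
          · rintro ⟨⟨h4, h5⟩, h6⟩ i
            exact ⟨h4 i, congrFun h6 i⟩
          · intro h4
            have h6 : (fun i => (x i : ZMod q)) = y := funext fun i => (h4 i).2
            refine ⟨⟨fun i => (h4 i).1, ?_⟩, h6⟩
            have h7 := Phi_coe ω hqH (fun i => (x i : ℤ))
            simp only [Int.cast_natCast] at h7
            rw [h6] at h7
            rw [h7] at hy'
            simpa only [natCast_zsmul] using hy'
        rw [h3, Fintype.card_piFinset]
        rw [Finset.prod_congr rfl (g := fun _ => M) fun i _ => card_class hq M (y i)]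
        rw [Finset.prod_const, Finset.card_univ]
    · intro x hx
      have hx' : x ∈ ((Fintype.piFinset fun _ : ι => Finset.Icc 1 (M * q)).filter
        fun x : ι → ℕ => ∑ i, x i • ω i ∈ B) := hx
      have hx2 := (Finset.mem_filter.1 hx').2
      have h7 := Phi_coe ω hqH (fun i => (x i : ℤ))
      simp only [Int.cast_natCast, natCast_zsmul] at h7
      change (fun i => (x i : ZMod q)) ∈ (Finset.univ.filter fun y : ι → ZMod q => Phi ω hqH y ∈ B)
      rw [Finset.mem_filter, h7]
      exact ⟨Finset.mem_univ _, hx2⟩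
  have h3 := card_mod ω hω hq hqH B
  calc (((Fintype.piFinset fun _ : ι => Finset.Icc 1 X).filter
      fun x : ι → ℕ => ∑ i, x i • ω i ∈ B).card : ℝ)
      ≤ (((Fintype.piFinset fun _ : ι => Finset.Icc 1 (M * q)).filter
      fun x : ι → ℕ => ∑ i, x i • ω i ∈ B).card : ℝ) := by exact_mod_cast h1
    _ = ((Finset.univ.filter fun y : ι → ZMod q => Phi ω hqH y ∈ B).card : ℝ) *
        (M : ℝ) ^ Fintype.card ι := by exact_mod_cast h2
    _ = ((M * q : ℕ) : ℝ) ^ Fintype.card ι * (B.card / Fintype.card H) := by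
        rw [h3]; push_cast; rw [mul_pow]; ring
    _ ≤ _ := by
        refine mul_le_mul_of_nonneg_right ?_ (by positivity)
        refine pow_le_pow_left₀ (by positivity) ?_ _
        exact_mod_cast hMX'

end grp

end Pool.Agent.V5helper58.TW
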