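import Mathlib
import Pool.Agent.V5helper58.TW.Box

/-! Algebraic integers of a box in residue classes modulo several primes. -/

set_option autoImplicit false

open Finset NumberField IsDedekindDomain

namespace Pool.Agent.V5helper58.TW

section field

variable {k : Type*} [Field k] [Fintype k] [DecidableEq k]

/-- a set of elements of a finite field whose products are squares -/
theorem sq_card (hchar : ringChar k ≠ 2) (h5 : 5 ≤ Fintype.card k) (B : Finset k)
    (hB : ∀ c ∈ B, ∀ d ∈ B, c ≠ 0 → d ≠ 0 → IsSquare (c * d)) : 5 * B.card ≤ 3 * Fintype.card k := by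
  classical
  obtain ⟨n, hn⟩ := FiniteField.exists_nonsquare hchar
  have hn0 : n ≠ 0 := by
    rintro rfl
    exact hn IsSquare.zero
  set Sq := (univ : Finset k).filter fun a => a ≠ 0 ∧ IsSquare a with hSq
  have h1 : 2 * Sq.card + 1 ≤ Fintype.card k := by
    have h2 : (Sq.image fun a => n * a).card = Sq.card :=
      Finset.card_image_of_injective _ (mul_right_injective₀ hn0)
    have h3 : Disjoint Sq (Sq.image fun a => n * a) := by
      rw [Finset.disjoint_left]
      intro a ha ha'
      obtain ⟨b, hb, rfl⟩ := Finset.mem_image.1 ha'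
      rw [hSq, Finset.mem_filter] at ha hb
      apply hn
      obtain ⟨-, hb0, r, hr⟩ := hb
      obtain ⟨-, -, t, ht⟩ := ha
      have hr0 : r ≠ 0 := by
        rintro rfl
        exact hb0 (by rw [hr, zero_mul])
      refine ⟨t / r, ?_⟩
      rw [hr] at ht
      field_simp
      linear_combination ht
    have h4 : Disjoint (Sq ∪ Sq.image fun a => n * a) {0} := by
      rw [Finset.disjoint_singleton_right, Finset.mem_union, Finset.mem_image]
      rintro (h | ⟨b, hb, h⟩)
      · rw [hSq, Finset.mem_filter] at h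
        exact h.2.1 rfl
      · rw [hSq, Finset.mem_filter] at hb
        rcases mul_eq_zero.1 h with h | h
        · exact hn0 h
        · exact hb.2.1 h
    have h5 : ((Sq ∪ Sq.image fun a => n * a) ∪ {0}).card ≤ Fintype.card k :=
      Finset.card_le_univ _
    rw [Finset.card_union_of_disjoint h4, Finset.card_union_of_disjoint h3, h2,
      Finset.card_singleton] at h5
    omega
  by_cases hne : (B.erase 0).Nonempty
  · obtain ⟨c, hc⟩ := hne
    rw [Finset.mem_erase] at hc
    have h6 : (B.erase 0).card ≤ Sq.card := by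
      refine Finset.card_le_card_of_injOn (fun d => c * d) ?_
        ((mul_right_injective₀ hc.1).injOn)
      intro d hd
      have hd' : d ∈ B.erase 0 := hd
      rw [Finset.mem_erase] at hd'
      change c * d ∈ Sq
      rw [hSq, Finset.mem_filter]
      exact ⟨Finset.mem_univ _, mul_ne_zero hc.1 hd'.1, hB c hc.2 d hd'.2 hc.1 hd'.1⟩
    have h7 : B.card ≤ (B.erase 0).card + 1 := by
      have := Finset.pred_card_le_card_erase (s := B) (a := (0 : k))
      omega
    omega
  · rw [Finset.not_nonempty_iff_eq_empty] at hne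
    have h7 : B.card ≤ (B.erase 0).card + 1 := by
      have := Finset.pred_card_le_card_erase (s := B) (a := (0 : k))
      omega
    rw [hne, Finset.card_empty] at h7
    omega

end field

section NF

variable {K : Type*} [Field K] [NumberField K]

instance finite_quot (v : HeightOneSpectrum (𝓞 K)) : Finite (𝓞 K ⧸ v.asIdeal) :=
  v.asIdeal.finiteQuotientOfFreeOfNeBot v.ne_bot

noncomputable instance fintype_quot (v : HeightOneSpectrum (𝓞 K)) :
    Fintype (𝓞 K ⧸ v.asIdeal) := Fintype.ofFinite _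

theorem card_quot (v : HeightOneSpectrum (𝓞 K)) :
    Fintype.card (𝓞 K ⧸ v.asIdeal) = Ideal.absNorm v.asIdeal := by
  rw [Ideal.absNorm_apply, Submodule.cardQuot_apply, Nat.card_eq_fintype_card]

open Classical in
/-- **Points of a box in residue classes.** -/
theorem field_count {ι : Type*} [Fintype ι] (ω : Module.Basis ι ℤ (𝓞 K))
    (U : Finset (HeightOneSpectrum (𝓞 K)))
    (B : ∀ v : HeightOneSpectrum (𝓞 K), Finset (𝓞 K ⧸ v.asIdeal))
    (hB : ∀ v ∈ U, 5 * (B v).card ≤ 3 * Ideal.absNorm v.asIdeal) {X : ℕ}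
    (hX : ∏ v ∈ U, Ideal.absNorm v.asIdeal ≤ X) :
    (((Fintype.piFinset fun _ : ι => Finset.Icc 1 X).filter fun x : ι → ℕ =>
      ∀ v ∈ U, Ideal.Quotient.mk v.asIdeal (∑ i, x i • ω i) ∈ B v).card : ℝ) ≤
      (3 / 5) ^ U.card * (2 * X) ^ Fintype.card ι := by
  obtain ⟨q, hq⟩ : ∃ q : ℕ, q = ∏ v ∈ U, Ideal.absNorm v.asIdeal := ⟨_, rfl⟩
  have hN0 : ∀ v : HeightOneSpectrum (𝓞 K), 0 < Ideal.absNorm v.asIdeal := fun v => by
    rw [← card_quot v]; exact Fintype.card_pos
  have hq0 : 0 < q := by
    rw [hq]; exact Finset.prod_pos fun v _ => hN0 v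
  have h := box_count (H := (v : U) → 𝓞 K ⧸ v.1.asIdeal)
    (fun i v => Ideal.Quotient.mk v.1.asIdeal (ω i)) ?_ hq0 ?_ (hq.trans_le hX)
    (Fintype.piFinset fun v : U => B v.1)
  · rw [Fintype.card_piFinset, Fintype.card_pi] at h
    have e1 : (((∏ v : U, (B v.1).card : ℕ) : ℝ) / ((∏ v : U, Fintype.card (𝓞 K ⧸ v.1.asIdeal) : ℕ) : ℝ)) ≤
        (3 / 5) ^ U.card := by
      rw [Nat.cast_prod, Nat.cast_prod, ← Finset.prod_div_distrib,
        Finset.prod_coe_sort U (fun v => ((B v).card : ℝ) / (Fintype.card (𝓞 K ⧸ v.asIdeal) : ℝ))]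
      rw [← Finset.prod_const]
      refine Finset.prod_le_prod (fun v _ => by positivity) fun v hv => ?_
      rw [card_quot, div_le_iff₀ (by exact_mod_cast hN0 v)]
      have := hB v hv
      have h2 : (5 * ((B v).card : ℝ)) ≤ 3 * (Ideal.absNorm v.asIdeal : ℝ) := by exact_mod_cast this
      linarith
    have e2 : ((Fintype.piFinset fun _ : ι => Finset.Icc 1 X).filter fun x : ι → ℕ =>
        ∀ v ∈ U, Ideal.Quotient.mk v.asIdeal (∑ i, x i • ω i) ∈ B v) =
        (Fintype.piFinset fun _ : ι => Finset.Icc 1 X).filter fun x : ι → ℕ =>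
          (∑ i, x i • (fun v : U => Ideal.Quotient.mk v.1.asIdeal (ω i)) :
            (v : U) → 𝓞 K ⧸ v.1.asIdeal) ∈ Fintype.piFinset fun v : U => B v.1 := by
      ext x
      simp only [Finset.mem_filter, Fintype.mem_piFinset, Finset.sum_apply, Pi.smul_apply,
        map_sum, map_nsmul, Subtype.forall]
    rw [e2]
    refine h.trans ?_
    rw [mul_comm]
    refine mul_le_mul_of_nonneg_right ?_ (by positivity)
    exact e1
  · -- surjectivity
    intro y
    choose r hr using fun v : U => Ideal.Quotient.mk_surjective (I := v.1.asIdeal) (y v)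
    obtain ⟨z, hz⟩ := IsDedekindDomain.exists_forall_sub_mem_ideal (s := U)
      (fun v : HeightOneSpectrum (𝓞 K) => v.asIdeal) (fun _ => 1)
      (fun v _ => v.prime) (fun v _ w _ hvw h => hvw (HeightOneSpectrum.ext h)) r
    refine ⟨fun i => ω.repr z i, ?_⟩
    funext v
    rw [Finset.sum_apply]
    simp only [Pi.smul_apply]
    have h1 : ∑ i, ω.repr z i • ω i = z := ω.sum_repr z
    have h2 : ∑ i, ω.repr z i • (Ideal.Quotient.mk v.1.asIdeal) (ω i) =
        Ideal.Quotient.mk v.1.asIdeal (∑ i, ω.repr z i • ω i) := by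
      rw [map_sum]
      simp only [map_zsmul]
    rw [h2, h1, ← hr v, Ideal.Quotient.eq]
    have := hz v.1 v.2
    rwa [pow_one] at this
  · -- the exponent
    intro y
    funext v
    rw [Pi.smul_apply, Pi.zero_apply]
    obtain ⟨r, hr⟩ := Ideal.Quotient.mk_surjective (I := v.1.asIdeal) (y v)
    rw [← hr, ← map_zsmul, Ideal.Quotient.eq_zero_iff_mem, zsmul_eq_mul]
    apply Ideal.mul_mem_right
    have h1 : ((Ideal.absNorm v.1.asIdeal : ℕ) : 𝓞 K) ∈ v.1.asIdeal := Ideal.absNorm_mem _
    have h2 : Ideal.absNorm v.1.asIdeal ∣ q := by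
      rw [hq]; exact Finset.dvd_prod_of_mem _ v.2
    obtain ⟨c, hc⟩ := h2
    rw [hc]
    push_cast
    exact Ideal.mul_mem_right _ _ h1

end NF

end Pool.Agent.V5helper58.TW
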