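import Mathlib
import Pool.Agent.V5helper58.LA.Slope
import Pool.Agent.V5helper58.TW.Cls

/-! Twists with non-split reduction: the double of every rational point does not reduce to the
node. -/

set_option autoImplicit false
set_option linter.unusedSectionVars false

open WeierstrassCurve Pool.Agent.TH942 Pool.Agent.V5helper58.LA

namespace Pool.Agent.V5helper58.TW

section near

variable {F : Type*} [Field F] {w : AbsoluteValue F ℝ}

/-- `a` is close to `b` -/
def Nr (w : AbsoluteValue F ℝ) (a b : F) : Prop := w (a - b) < w b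

theorem Nr.ne {a b : F} (h : Nr w a b) : b ≠ 0 := by
  rintro rfl
  rw [Nr, map_zero] at h
  exact absurd h (not_lt.2 (w.nonneg _))

theorem Nr.eq (hw : IsNonarchimedean w) {a b : F} (h : Nr w a b) : w a = w b := by
  have h1 : a = b + (a - b) := by ring
  rw [h1]
  exact na_eq hw h

theorem Nr.ne' (hw : IsNonarchimedean w) {a b : F} (h : Nr w a b) : a ≠ 0 := by
  rintro rfl
  have := h.eq hw
  rw [map_zero] at this
  exact h.ne ((w.eq_zero).1 this.symm)

theorem Nr.symm (hw : IsNonarchimedean w) {a b : F} (h : Nr w a b) : Nr w b a := by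
  rw [Nr, h.eq hw, ← w.map_neg, neg_sub]
  exact h

theorem Nr.trans (hw : IsNonarchimedean w) {a b c : F} (h : Nr w a b) (h' : Nr w b c) :
    Nr w a c := by
  have h1 : a - c = (a - b) + (b - c) := by ring
  rw [Nr, h1]
  refine na_add_lt hw ?_ h'
  rw [← h'.eq hw]
  exact h

theorem Nr.mul (hw : IsNonarchimedean w) {a b c d : F} (h : Nr w a b) (h' : Nr w c d) :
    Nr w (a * c) (b * d) := by
  have h1 : a * c - b * d = (a - b) * c + b * (c - d) := by ring
  rw [Nr, h1, w.map_mul b d]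
  refine na_add_lt hw ?_ ?_
  · rw [w.map_mul, h'.eq hw]
    exact mul_lt_mul_of_pos_right h (w.pos h'.ne)
  · rw [w.map_mul]
    exact mul_lt_mul_of_pos_left h' (w.pos h.ne)

theorem Nr.refl {a : F} (h : a ≠ 0) : Nr w a a := by
  rw [Nr, sub_self, map_zero]
  exact w.pos h

theorem Nr.pow (hw : IsNonarchimedean w) {a b : F} (h : Nr w a b) (n : ℕ) :
    Nr w (a ^ n) (b ^ n) := by
  induction n with
  | zero => rw [pow_zero, pow_zero]; exact Nr.refl one_ne_zero
  | succ n ih => rw [pow_succ, pow_succ]; exact ih.mul hw h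

theorem Nr.cancel {a b c : F} (hc : c ≠ 0) (h : Nr w (a * c) (b * c)) : Nr w a b := by
  rw [Nr, ← sub_mul, w.map_mul, w.map_mul] at h
  exact lt_of_mul_lt_mul_right h (w.nonneg c)

theorem Nr.cancel2 (hw : IsNonarchimedean w) {a b c d : F} (h : Nr w (a * c) (b * d))
    (h' : Nr w c d) : Nr w a b := by
  have hb : b ≠ 0 := left_ne_zero_of_mul h.ne
  have h1 : Nr w (b * d) (b * c) := (Nr.refl hb).mul hw (h'.symm hw)
  exact Nr.cancel (h'.ne' hw) (h.trans hw h1)

theorem Nr.add {b d : F} (h : w d < w b) : Nr w (b + d) b := by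
  rw [Nr, add_sub_cancel_left]
  exact h

end near

section curve

variable {L : Type} [Field L] {Ω : Type} [Field Ω] [Algebra L Ω]
  {w : AbsoluteValue Ω ℝ} {A B : L} {e₁ e₂ e₃ : Ω}

theorem ratA (hc : Cfg w A B e₁ e₂ e₃) : Nr w (algebraMap L Ω A) (-(3 * e₁ ^ 2)) := by
  have hna := hc.na
  have hw1 := hc.w1
  have he0 : 0 < w e₁ := by rw [hw1]; exact hc.q_pos
  have hlt : w (e₃ - e₁) < w e₁ := by rw [hw1]; exact hc.lt
  have h1 : algebraMap L Ω A = -(3 * e₁ ^ 2) + -((e₃ - e₁) * (3 * e₁ + (e₃ - e₁))) := by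
    have h2 : e₂ = -e₁ - e₃ := by linear_combination hc.s1
    rw [← hc.s2, h2]
    ring
  rw [h1]
  apply Nr.add
  rw [w.map_neg, w.map_neg, w.map_mul, w.map_mul, w.map_pow, hc.three, one_mul]
  have h3 : w (3 * e₁ + (e₃ - e₁)) ≤ w e₁ := by
    refine na_add_le hna ?_ hlt.le
    rw [w.map_mul, hc.three, one_mul]
  calc w (e₃ - e₁) * w (3 * e₁ + (e₃ - e₁)) ≤ w (e₃ - e₁) * w e₁ :=
        mul_le_mul_of_nonneg_left h3 (w.nonneg _)
    _ < w e₁ * w e₁ := mul_lt_mul_of_pos_right hlt he0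
    _ = w e₁ ^ 2 := by ring

theorem ratB (hc : Cfg w A B e₁ e₂ e₃) : Nr w (algebraMap L Ω B) (2 * e₁ ^ 3) := by
  have hna := hc.na
  have hw1 := hc.w1
  have he0 : 0 < w e₁ := by rw [hw1]; exact hc.q_pos
  have hlt : w (e₃ - e₁) < w e₁ := by rw [hw1]; exact hc.lt
  have h1 : algebraMap L Ω B = 2 * e₁ ^ 3 + (e₃ - e₁) * (e₁ * (3 * e₁ + (e₃ - e₁))) := by
    have h2 : e₂ = -e₁ - e₃ := by linear_combination hc.s1
    have h3 : algebraMap L Ω B = -(e₁ * e₂ * e₃) := by rw [hc.s3, neg_neg]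
    rw [h3, h2]
    ring
  rw [h1]
  apply Nr.add
  rw [w.map_mul, w.map_mul, w.map_mul 2, w.map_pow, hc.two, one_mul]
  have h3 : w (3 * e₁ + (e₃ - e₁)) ≤ w e₁ := by
    refine na_add_le hna ?_ hlt.le
    rw [w.map_mul, hc.three, one_mul]
  calc w (e₃ - e₁) * (w e₁ * w (3 * e₁ + (e₃ - e₁))) ≤ w (e₃ - e₁) * (w e₁ * w e₁) := by gcongr
    _ < w e₁ * (w e₁ * w e₁) := mul_lt_mul_of_pos_right hlt (by positivity)
    _ = w e₁ ^ 3 := by ring

section dec

variable [DecidableEq L] [CharZero L]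

/-- a point in the interior of the interval of components shows that `-2AB` is close to a square -/
theorem near_square (hc : Cfg w A B e₁ e₂ e₃) {x y : L}
    (h : (sw A B).toAffine.Nonsingular x y)
    (h1 : w (e₃ - e₁) < w (algebraMap L Ω x - e₁)) (h2 : w (algebraMap L Ω x - e₁) < w (e₂ - e₁)) :
    ∃ z : L, Nr w (algebraMap L Ω (z ^ 2)) (algebraMap L Ω (-2 * A * B)) := by
  have hna := hc.na
  have hw1 := hc.w1
  have hq := hc.q_pos
  have he0 : 0 < w e₁ := by rw [hw1]; exact hq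
  have hlt : w (e₃ - e₁) < w e₁ := by rw [hw1]; exact hc.lt
  have hA := ratA hc
  have hB := ratB hc
  have hA0 : algebraMap L Ω A ≠ 0 := hA.ne' hna
  have hA0' : A ≠ 0 := by
    rintro rfl
    exact hA0 (map_zero _)
  have c2 : (2 : Ω) ≠ 0 := by
    intro h0
    have := hc.two
    rw [h0, map_zero] at this
    exact zero_ne_one this
  have c3 : (3 : Ω) ≠ 0 := by
    intro h0
    have := hc.three
    rw [h0, map_zero] at this
    exact zero_ne_one this
  have he1 : e₁ ≠ 0 := by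
    rintro rfl
    rw [map_zero] at he0
    exact lt_irrefl _ he0
  obtain ⟨x₀, hx₀⟩ : ∃ x₀ : L, x₀ = -(3 * B) / (2 * A) := ⟨_, rfl⟩
  set X := algebraMap L Ω x with hX
  set Y := algebraMap L Ω y with hY
  set X0 := algebraMap L Ω x₀ with hX0
  set A' := algebraMap L Ω A with hA'
  set B' := algebraMap L Ω B with hB'
  have hX0' : X0 * (2 * A') = -(3 * B') := by
    have h3 : x₀ * (2 * A) = -(3 * B) := by
      rw [hx₀]; field_simp
    have h4 := congrArg (algebraMap L Ω) h3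
    rw [map_mul, map_mul, map_neg, map_mul, map_ofNat, map_ofNat] at h4
    exact h4
  have e2 : e₂ = -e₁ - e₃ := by linear_combination hc.s1
  have hB2 : B' = -(e₁ * e₂ * e₃) := by rw [hB', hc.s3, neg_neg]
  have hA2 : A' = e₁ * e₂ + e₁ * e₃ + e₂ * e₃ := hc.s2.symm
  -- the distance of the node
  have hx0e : w (X0 - e₁) = w (e₃ - e₁) := by
    have h3 : (X0 - e₁) * (2 * A') = -(e₁ * (e₃ - e₁) * (3 * e₁ + (e₃ - e₁))) := by
      rw [sub_mul, hX0', hB2, hA2, e2]; ring
    have h4 := congrArg w h3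
    have h5 : w (3 * e₁ + (e₃ - e₁)) = w e₁ := by
      rw [na_eq hna (by rw [w.map_mul, hc.three, one_mul]; exact hlt), w.map_mul, hc.three,
        one_mul]
    rw [w.map_mul, w.map_mul, w.map_neg, w.map_mul, w.map_mul, h5, hc.two, one_mul, hA.eq hna,
      w.map_neg, w.map_mul, hc.three, one_mul, w.map_pow] at h4
    have h6 : w (X0 - e₁) * w e₁ ^ 2 = w (e₃ - e₁) * w e₁ ^ 2 := by rw [h4]; ring
    exact mul_right_cancel₀ (by positivity) h6
  have hU : 0 < w (X - e₁) := lt_of_le_of_lt (w.nonneg _) h1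
  have n1 : Nr w X0 e₁ := by
    rw [Nr, hx0e]; exact hlt
  have n2 : Nr w (X - X0) (X - e₁) := by
    have h3 : X - X0 - (X - e₁) = -(X0 - e₁) := by ring
    rw [Nr, h3, w.map_neg, hx0e]
    exact h1
  have n3 : Nr w (Y ^ 2) ((X - e₁) * (3 * e₁ * (X - e₁))) := by
    have h3 : Y ^ 2 = (X - e₁) * ((X - e₂) * (X - e₃)) := by
      have h4 := congrArg (algebraMap L Ω) (sw_eqn.1 h.1)
      rw [map_pow, map_add, map_add, map_pow, map_mul] at h4
      rw [← hX, ← hY, ← hA', ← hB'] at h4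
      rw [h4, hA2, hB2, e2]
      ring
    rw [h3]
    refine (Nr.refl (by
      intro h0
      rw [h0, map_zero] at hU
      exact lt_irrefl _ hU)).mul hna (Nr.mul hna ?_ ?_)
    · have h4 : X - e₂ = 3 * e₁ + ((e₃ - e₁) + (X - e₁)) := by rw [e2]; ring
      rw [h4]
      apply Nr.add
      rw [w.map_mul, hc.three, one_mul]
      exact na_add_lt hna hlt (by rw [hw1]; exact h2)
    · have h4 : X - e₃ = (X - e₁) + -(e₃ - e₁) := by ring
      rw [h4]
      apply Nr.add
      rw [w.map_neg]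
      exact h1
  have hxx : X - X0 ≠ 0 := n2.ne' hna
  have hxx' : x - x₀ ≠ 0 := by
    intro h0
    apply hxx
    rw [hX, hX0, ← map_sub, h0, map_zero]
  refine ⟨2 * y * x₀ ^ 2 / (x - x₀), ?_⟩
  have h3 : algebraMap L Ω ((2 * y * x₀ ^ 2 / (x - x₀)) ^ 2) * (X - X0) ^ 2 =
      4 * (Y ^ 2 * X0 ^ 4) := by
    rw [map_pow, map_div₀, map_sub, map_mul, map_mul, map_pow, map_ofNat, ← hX, ← hY, ← hX0]
    field_simp
    ring
  have c4 : (4 : Ω) ≠ 0 := by
    have : (4 : Ω) = 2 * 2 := by norm_num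
    rw [this]; exact mul_ne_zero c2 c2
  have n4 : Nr w (algebraMap L Ω ((2 * y * x₀ ^ 2 / (x - x₀)) ^ 2) * (X - X0) ^ 2)
      (12 * e₁ ^ 5 * (X - e₁) ^ 2) := by
    rw [h3]
    have h4 : (12 : Ω) * e₁ ^ 5 * (X - e₁) ^ 2 =
        4 * ((X - e₁) * (3 * e₁ * (X - e₁)) * e₁ ^ 4) := by ring
    rw [h4]
    exact (Nr.refl c4).mul hna (n3.mul hna (n1.pow hna 4))
  have n5 := n4.cancel2 hna (n2.pow hna 2)
  refine n5.trans hna ?_
  have h6 : algebraMap L Ω (-2 * A * B) = -2 * (A' * B') := by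
    rw [map_mul, map_mul, map_neg, map_ofNat]; ring
  have h7 : (12 : Ω) * e₁ ^ 5 = -2 * (-(3 * e₁ ^ 2) * (2 * e₁ ^ 3)) := by ring
  rw [h6, h7]
  refine Nr.symm hna ((Nr.refl (neg_ne_zero.2 c2)).mul hna (hA.mul hna hB))

/-- **The double of a point.** -/
theorem double_inZ (hc : Cfg w A B e₁ e₂ e₃) (hD : 4 * A ^ 3 + 27 * B ^ 2 ≠ 0) (hne : e₃ - e₁ ≠ 0)
    (hns : ∀ z : L, ¬ Nr w (algebraMap L Ω (z ^ 2)) (algebraMap L Ω (-2 * A * B)))
    (P : SPt A B) : InZ w e₁ e₂ (P + P) := by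
  match P with
  | .zero =>
    have : (Affine.Point.zero : SPt A B) + Affine.Point.zero = 0 := add_zero (0 : SPt A B)
    rw [this]
    exact inZ_zero
  | .some x y h =>
    rcases le_or_gt (w (e₂ - e₁)) (w (algebraMap L Ω x - e₁)) with c1 | c1
    · exact (inZ_both hc hD ((inZ_some h).2 c1) ((inZ_some h).2 c1)).1
    rcases le_or_gt (w (algebraMap L Ω x - e₁)) (w (e₃ - e₁)) with c2 | c2
    · exact (deep_both hc hD hne (zz_some h) (zz_some h) (by rw [uu_some]; exact c2)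
        (by rw [uu_some]; exact c2)).1
    · obtain ⟨z, hz⟩ := near_square hc h c2 c1
      exact absurd hz (hns z)

end dec

end curve

end Pool.Agent.V5helper58.TW
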