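import Mathlib
import Pool.Agent.V5helper58.TW.Near

/-! The residue classes modulo a prime in which a twist can have split reduction. -/

set_option autoImplicit false
set_option linter.unusedSectionVars false

open Finset NumberField IsDedekindDomain Pool.Agent.V5helper58.LA

namespace Pool.Agent.V5helper58.TW

variable {K : Type*} [Field K] [NumberField K]

theorem lt_one_iff (v : HeightOneSpectrum (𝓞 K)) (x : K) :
    (FinitePlace.mk v).val x < 1 ↔ v.valuation K x < 1 := by
  change ‖FinitePlace.embedding v x‖ < 1 ↔ _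
  rw [FinitePlace.norm_embedding']
  rw [← NNReal.coe_one, NNReal.coe_lt_coe]
  exact WithZeroMulInt.toNNReal_lt_one_iff (HeightOneSpectrum.one_lt_absNorm_nnreal v)

theorem le_one_iff (v : HeightOneSpectrum (𝓞 K)) (x : K) :
    (FinitePlace.mk v).val x ≤ 1 ↔ v.valuation K x ≤ 1 := by
  change ‖FinitePlace.embedding v x‖ ≤ 1 ↔ _
  rw [FinitePlace.norm_embedding']
  rw [← NNReal.coe_one, NNReal.coe_le_coe]
  exact WithZeroMulInt.toNNReal_le_one_iff (HeightOneSpectrum.one_lt_absNorm_nnreal v)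

theorem int_le_one (v : HeightOneSpectrum (𝓞 K)) (x : 𝓞 K) : (FinitePlace.mk v).val (x : K) ≤ 1 :=
  FinitePlace.norm_le_one K v x

theorem int_lt_one_iff (v : HeightOneSpectrum (𝓞 K)) (x : 𝓞 K) :
    (FinitePlace.mk v).val (x : K) < 1 ↔ x ∈ v.asIdeal :=
  FinitePlace.norm_lt_one_iff_mem K v x

theorem mk_na (v : HeightOneSpectrum (𝓞 K)) : IsNonarchimedean (FinitePlace.mk v).val := by
  intro x y
  exact FinitePlace.add_le (FinitePlace.mk v) x y

/-- an element of `K` that is integral at `v` is close to an integer -/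
theorem approx (v : HeightOneSpectrum (𝓞 K)) {x : K} (hx : (FinitePlace.mk v).val x ≤ 1) :
    ∃ y : 𝓞 K, (FinitePlace.mk v).val ((y : K) - x) < 1 := by
  obtain ⟨y, hy⟩ := v.exists_valuation_sub_lt_of_integer ((le_one_iff v x).1 hx) 1
  refine ⟨y, (lt_one_iff v _).2 ?_⟩
  simpa using hy

/-- `m d` is close to a square of `K` at the place `v` -/
def SqAt (m : K) (v : FinitePlace K) (d : 𝓞 K) : Prop :=
  ∃ z : K, Nr v.val (z ^ 2) (m * d)

open Classical in
/-- the residue classes modulo `v` of the `d` with `v ∣ d` or `m d` close to a square -/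
noncomputable def Bset (m : K) (v : HeightOneSpectrum (𝓞 K)) : Finset (𝓞 K ⧸ v.asIdeal) :=
  Finset.univ.filter fun c => ∃ d : 𝓞 K, Ideal.Quotient.mk v.asIdeal d = c ∧
    (d ∈ v.asIdeal ∨ SqAt m (FinitePlace.mk v) d)

theorem six_split (v : HeightOneSpectrum (𝓞 K)) (h6 : (FinitePlace.mk v).val 6 = 1) :
    (2 : 𝓞 K) ∉ v.asIdeal ∧ (3 : 𝓞 K) ∉ v.asIdeal := by
  have e1 : (6 : K) = (2 : K) * 3 := by norm_num
  have l2 : (FinitePlace.mk v).val ((2 : 𝓞 K) : K) ≤ 1 := int_le_one v 2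
  have l3 : (FinitePlace.mk v).val ((3 : 𝓞 K) : K) ≤ 1 := int_le_one v 3
  have c2 : ((2 : 𝓞 K) : K) = 2 := map_ofNat (algebraMap (𝓞 K) K) 2
  have c3 : ((3 : 𝓞 K) : K) = 3 := map_ofNat (algebraMap (𝓞 K) K) 3
  have b2 := (FinitePlace.mk v).val.nonneg (2 : K)
  have b3 := (FinitePlace.mk v).val.nonneg (3 : K)
  rw [e1, map_mul] at h6
  rw [c2] at l2
  rw [c3] at l3
  constructor
  · intro h
    have := (int_lt_one_iff v 2).2 h
    rw [c2] at this
    nlinarith
  · intro h
    have := (int_lt_one_iff v 3).2 h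
    rw [c3] at this
    nlinarith

theorem Bset_card {m : K} (hm : m ≠ 0) (v : HeightOneSpectrum (𝓞 K))
    (h6 : (FinitePlace.mk v).val 6 = 1) :
    5 * (Bset m v).card ≤ 3 * Ideal.absNorm v.asIdeal := by
  classical
  obtain ⟨h2, h3⟩ := six_split v h6
  have hna := mk_na v
  letI : Field (𝓞 K ⧸ v.asIdeal) := @Ideal.Quotient.field _ _ v.asIdeal v.isMaximal
  have q2 : (2 : 𝓞 K ⧸ v.asIdeal) ≠ 0 := by
    intro h
    apply h2
    rw [← Ideal.Quotient.eq_zero_iff_mem, map_ofNat]
    exact h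
  have q3 : (3 : 𝓞 K ⧸ v.asIdeal) ≠ 0 := by
    intro h
    apply h3
    rw [← Ideal.Quotient.eq_zero_iff_mem, map_ofNat]
    exact h
  rw [← card_quot v]
  apply sq_card
  · intro h
    apply q2
    have := ringChar.Nat.cast_ringChar (R := 𝓞 K ⧸ v.asIdeal)
    rw [h] at this
    exact_mod_cast this
  · -- at least five elements
    by_contra hcon
    push Not at hcon
    have h0 : ((Fintype.card (𝓞 K ⧸ v.asIdeal) : ℕ) : 𝓞 K ⧸ v.asIdeal) = 0 :=
      Nat.cast_card_eq_zero _
    have h1 : 1 < Fintype.card (𝓞 K ⧸ v.asIdeal) := Fintype.one_lt_card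
    obtain h | h | h : Fintype.card (𝓞 K ⧸ v.asIdeal) = 2 ∨ Fintype.card (𝓞 K ⧸ v.asIdeal) = 3 ∨
        Fintype.card (𝓞 K ⧸ v.asIdeal) = 4 := by omega
    · rw [h] at h0
      exact q2 (by exact_mod_cast h0)
    · rw [h] at h0
      exact q3 (by exact_mod_cast h0)
    · rw [h] at h0
      have h4 : (2 : 𝓞 K ⧸ v.asIdeal) * 2 = 0 := by
        have : ((4 : ℕ) : 𝓞 K ⧸ v.asIdeal) = 2 * 2 := by norm_num
        rw [← this]; exact h0
      rcases mul_eq_zero.1 h4 with h | h <;> exact q2 h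
  · -- the products are squares
    intro c hc d hd hc0 hd0
    rw [Bset, Finset.mem_filter] at hc hd
    obtain ⟨-, x, hx, hx'⟩ := hc
    obtain ⟨-, y, hy, hy'⟩ := hd
    have hxm : x ∉ v.asIdeal := by
      intro h
      apply hc0
      rw [← hx]
      exact Ideal.Quotient.eq_zero_iff_mem.2 h
    have hym : y ∉ v.asIdeal := by
      intro h
      apply hd0
      rw [← hy]
      exact Ideal.Quotient.eq_zero_iff_mem.2 h
    obtain ⟨z₁, hz₁⟩ := hx'.resolve_left hxm
    obtain ⟨z₂, hz₂⟩ := hy'.resolve_left hym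
    have vx : (FinitePlace.mk v).val (x : K) = 1 := by
      apply le_antisymm (int_le_one v x)
      by_contra hcon
      exact hxm ((int_lt_one_iff v x).1 (not_le.1 hcon))
    have vy : (FinitePlace.mk v).val (y : K) = 1 := by
      apply le_antisymm (int_le_one v y)
      by_contra hcon
      exact hym ((int_lt_one_iff v y).1 (not_le.1 hcon))
    have h1 := hz₁.mul hna hz₂
    have h4 : Nr (FinitePlace.mk v).val ((z₁ * z₂ / m) ^ 2) ((x : K) * y) := by
      have e1 : z₁ ^ 2 * z₂ ^ 2 = (z₁ * z₂ / m) ^ 2 * m ^ 2 := by field_simp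
      have e2 : m * (x : K) * (m * y) = (x : K) * y * m ^ 2 := by ring
      rw [e1, e2] at h1
      exact Nr.cancel (pow_ne_zero 2 hm) h1
    have h5 := h4.eq hna
    rw [map_mul, vx, vy, mul_one, map_pow] at h5
    have h6 : (FinitePlace.mk v).val (z₁ * z₂ / m) = 1 := by
      have h7 := (FinitePlace.mk v).val.nonneg (z₁ * z₂ / m)
      nlinarith
    obtain ⟨t, ht⟩ := approx v h6.le
    refine ⟨Ideal.Quotient.mk v.asIdeal t, ?_⟩
    rw [← hx, ← hy, ← map_mul, ← map_mul, Ideal.Quotient.eq, ← int_lt_one_iff]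
    have h8 : Nr (FinitePlace.mk v).val (t : K) (z₁ * z₂ / m) := by
      rw [Nr, h6]; exact ht
    have h9 := (h8.pow hna 2).trans hna h4
    have h10 := h9.symm hna
    have h11 : (FinitePlace.mk v).val ((t : K) ^ 2) = 1 := by
      rw [map_pow, h8.eq hna, h6, one_pow]
    rw [Nr, h11] at h10
    have e3 : ((x * y - t * t : 𝓞 K) : K) = (x : K) * y - (t : K) ^ 2 := by
      change algebraMap (𝓞 K) K (x * y - t * t) = _
      rw [map_sub, map_mul, map_mul]; ring
    rw [e3]
    exact h10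

theorem mem_Bset {m : K} {v : HeightOneSpectrum (𝓞 K)} {d : 𝓞 K}
    (h : Ideal.Quotient.mk v.asIdeal d ∉ Bset m v) :
    d ∉ v.asIdeal ∧ ¬ SqAt m (FinitePlace.mk v) d := by
  classical
  rw [Bset, Finset.mem_filter, not_and] at h
  have h1 := h (Finset.mem_univ _)
  push Not at h1
  exact h1 d rfl

end Pool.Agent.V5helper58.TW
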