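import Mathlib
import Pool.Agent.V5helper58.LA.Main
import Pool.Agent.V5helper58.TW.Res
import Pool.Agent.V5helper58.TW.One

/-! Many places of non-split reduction. -/

set_option autoImplicit false
set_option linter.unusedSectionVars false

open Height NumberField Module Finset Pool.Agent.H951R3.PB Filter Topology TH951.LS TH951
open WeierstrassCurve
open Pool.Agent.TH942 Pool.Agent.TH910.LS Pool.Agent.Y725.LS Pool.Agent.V5helper58.LA

namespace Pool.Agent.V5helper58.TW

/-- **Much height at places of non-split reduction.** -/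
theorem nonsplit_case (D : ℕ) {ε : ℝ} (hε : 0 < ε) : ∃ C A : ℝ, 0 < C ∧ 0 ≤ A ∧
    ∀ (K : Type) [Field K] [NumberField K] [DecidableEq K], finrank ℚ K ≤ D →
    ∀ a b : K, 4 * a ^ 3 + 27 * b ^ 2 ≠ 0 → A < logHeight₁ (jinv a b) / finrank ℚ K →
    ∀ (G : Finset (FinitePlace K)), (∀ v ∈ G, v.val 6 = 1 ∧ 1 < v.val (jinv a b) ∧
      ∀ z : K, ¬ Nr v.val (z ^ 2) (-2 * a * b)) →
      ε * logHeight₁ (jinv a b) ≤ ∑ v ∈ G, Real.log (v.val (jinv a b)) →
    ∀ P : SPt a b, ¬ IsOfFinAddOrder P →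
      logHeight₁ (jinv a b) / finrank ℚ K ≤ C * (chat P / finrank ℚ K) := by
  classical
  obtain ⟨C₁, A₁, hC₁, hA₁, hfar⟩ := far_case D hε
  refine ⟨C₁ * 4, A₁, by positivity, hA₁, ?_⟩
  intro K _ _ _ hK a b hab hAj G hG hsum P hP
  have hell : (sw a b).IsElliptic := sw_ell hab
  have hjj : (sw a b).j = jinv a b := jinv_eq _ _ hell
  obtain ⟨-, hq0, hq, -⟩ := chat_spec hab
  have hlim : ∀ Q : SPt a b, Tendsto (fun n : ℕ =>
      logHeight ((2 ^ n • Q).xRep) / (4 ^ n * Module.finrank ℚ K)) atTop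
      (𝓝 (chat Q / Module.finrank ℚ K)) := by
    intro Q
    have h := ((chat_spec hab).1 Q).div_const (Module.finrank ℚ K : ℝ)
    refine h.congr fun n => ?_
    rw [div_div]
    rfl
  choose wf hwf using fun v : FinitePlace K => exists_ext_fin v
  have hPP : ¬ IsOfFinAddOrder (P + P) := by
    intro h
    apply hP
    rw [isOfFinAddOrder_iff_nsmul_eq_zero] at h ⊢
    obtain ⟨n, hn, h⟩ := h
    refine ⟨n * 2, by omega, ?_⟩
    rw [mul_nsmul', two_nsmul]
    exact h
  have key := hfar K hK (sw a b) (by rw [hjj]; exact hAj) (fun Q => chat Q / finrank ℚ K) hlim wf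
    hwf (P + P) G hPP ?_ (by rw [hjj]; exact hsum)
  · rw [hjj] at key
    refine key.trans (le_of_eq ?_)
    have h1 : chat (P + P) = 4 * chat P := by
      have := chat_nsmul hab 2 P
      rw [two_nsmul] at this
      rw [this]; norm_num
    rw [h1]
    ring
  · intro v hv
    obtain ⟨h6, hj1, hns⟩ := hG v hv
    refine ⟨h6, by rw [hjj]; exact hj1, ?_⟩
    have hj1' : 1 < v.val (sw a b).j := by rw [hjj]; exact hj1
    obtain ⟨h2, h3⟩ : v.val (2 : K) = 1 ∧ v.val (3 : K) = 1 := by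
      have a1 : v.val ((2 : ℕ) : K) ≤ 1 := NF.natCast_le_one v 2
      have a2 : v.val ((3 : ℕ) : K) ≤ 1 := NF.natCast_le_one v 3
      have b1 : 0 ≤ v.val ((2 : ℕ) : K) := v.val.nonneg _
      have b2 : 0 ≤ v.val ((3 : ℕ) : K) := v.val.nonneg _
      have e1 : (6 : K) = ((2 : ℕ) : K) * ((3 : ℕ) : K) := by norm_num
      rw [e1, map_mul] at h6
      have c1 : v.val ((2 : ℕ) : K) = 1 := by
        apply le_antisymm a1; nlinarith
      have c2 : v.val ((3 : ℕ) : K) = 1 := by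
        rw [c1, one_mul] at h6; exact h6
      exact ⟨by simpa using c1, by simpa using c2⟩
    obtain ⟨e₁, e₂, e₃, hRt, hlt, hΛ⟩ := roots_lt (W := sw a b) v (hwf v) h2 hj1'
    have hcfg := cfg_of v (hwf v) h2 h3 hRt hlt
    have hne : e₃ - e₁ ≠ 0 := sub_ne_zero.2 (Ne.symm hRt.n13)
    have hmem : P + P ∈ E0 hcfg hab := by
      refine double_inZ hcfg hab hne (fun z hz => ?_) P
      apply hns z
      rw [Nr, ← map_sub, hwf v, hwf v] at hz
      exact hz
    intro i l hwd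
    have p1 : InZ (wf v) e₁ e₂ (2 ^ i • (P + P)) := AddSubgroup.nsmul_mem _ hmem (2 ^ i)
    have p2 : InZ (wf v) e₁ e₂ (2 ^ l • (P + P)) := AddSubgroup.nsmul_mem _ hmem (2 ^ l)
    have hp := pos_pair (W := sw a b) v (hwf v) h2
      hRt hlt hΛ.symm hwd (pos_of_inZ hcfg p1) (pos_of_inZ hcfg p2)
    refine le_trans (le_of_eq ?_) hp
    ring

end Pool.Agent.V5helper58.TW
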