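import Mathlib

/-! Weighted counts of sequences of distinct elements: concentration from independence of a bounded
number of events. -/

set_option autoImplicit false

open Finset

namespace Pool.Agent.V5helper58.TW

variable {V : Type*} [DecidableEq V]

/-- the weighted number of sequences of `k` distinct elements of `S` outside `U` -/
noncomputable def F (w : V → ℝ) : ℕ → Finset V → Finset V → ℝ
  | 0, _, _ => 1
  | k + 1, U, S => ∑ v ∈ S \ U, w v * F w k (insert v U) S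

theorem F_nonneg {w : V → ℝ} (hw : ∀ v, 0 ≤ w v) (S : Finset V) : ∀ (k : ℕ) (U : Finset V),
    0 ≤ F w k U S := by
  intro k
  induction k with
  | zero => intro U; exact zero_le_one
  | succ k ih => intro U; exact Finset.sum_nonneg fun v _ => mul_nonneg (hw v) (ih _)

theorem F_lower {w : V → ℝ} (hw : ∀ v, 0 ≤ w v) {η : ℝ} (hη0 : 0 ≤ η) (S : Finset V)
    (hη : ∀ v ∈ S, w v ≤ η) {m : ℝ} (hm : m ≤ ∑ v ∈ S, w v) : ∀ (k : ℕ) (U : Finset V),
    0 ≤ m - ((U.card : ℝ) + k) * η → (m - ((U.card : ℝ) + k) * η) ^ k ≤ F w k U S := by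
  intro k
  induction k with
  | zero => intro U _; simp [F]
  | succ k ih =>
    intro U hU
    obtain ⟨b, hb⟩ : ∃ b : ℝ, b = m - ((U.card : ℝ) + (k + 1 : ℕ)) * η := ⟨_, rfl⟩
    rw [← hb] at hU ⊢
    have h1 : ∀ v ∈ S \ U, w v * b ^ k ≤ w v * F w k (insert v U) S := by
      intro v hv
      refine mul_le_mul_of_nonneg_left ?_ (hw v)
      have h2 := ih (insert v U)
      have h3 : (((insert v U).card : ℕ) : ℝ) = U.card + 1 := by
        rw [Finset.card_insert_of_notMem (Finset.mem_sdiff.1 hv).2]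
        push_cast; ring
      rw [h3] at h2
      have h4 : m - ((U.card : ℝ) + 1 + k) * η = b := by rw [hb]; push_cast; ring
      rw [h4] at h2
      exact h2 hU
    have h5 : b ≤ ∑ v ∈ S \ U, w v := by
      have h6 : ∑ v ∈ S, w v = ∑ v ∈ S \ U, w v + ∑ v ∈ S ∩ U, w v := by
        rw [← Finset.sum_union (Finset.disjoint_sdiff_inter S U), Finset.sdiff_union_inter]
      have h7 : ∑ v ∈ S ∩ U, w v ≤ U.card * η := by
        calc ∑ v ∈ S ∩ U, w v ≤ ∑ _v ∈ S ∩ U, η :=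
              Finset.sum_le_sum fun v hv => hη v (Finset.mem_inter.1 hv).1
          _ = (S ∩ U).card * η := by rw [Finset.sum_const, nsmul_eq_mul]
          _ ≤ U.card * η := by
              refine mul_le_mul_of_nonneg_right ?_ hη0
              exact_mod_cast Finset.card_le_card Finset.inter_subset_right
      have h8 : 0 ≤ ((k + 1 : ℕ) : ℝ) * η := by positivity
      rw [hb]
      nlinarith
    calc b ^ (k + 1) = b * b ^ k := by ring
      _ ≤ (∑ v ∈ S \ U, w v) * b ^ k := mul_le_mul_of_nonneg_right h5 (by positivity)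
      _ = ∑ v ∈ S \ U, w v * b ^ k := Finset.sum_mul _ _ _
      _ ≤ _ := Finset.sum_le_sum h1

theorem F_upper {α : Type*} {w : V → ℝ} (hw : ∀ v, 0 ≤ w v) (V₀ : Finset V) (Box : Finset α)
    (S : α → Finset V) (hS : ∀ x ∈ Box, S x ⊆ V₀) {r B : ℝ} (hr : 0 ≤ r) (hB : 0 ≤ B) {K : ℕ}
    (hN : ∀ U ⊆ V₀, U.card ≤ K →
      (((Box.filter fun x => U ⊆ S x).card : ℕ) : ℝ) ≤ r ^ U.card * B) :
    ∀ (k : ℕ) (U : Finset V), U ⊆ V₀ → U.card + k ≤ K →
      ∑ x ∈ Box.filter (fun x => U ⊆ S x), F w k U (S x) ≤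
        (∑ v ∈ V₀, w v) ^ k * (r ^ (U.card + k) * B) := by
  intro k
  induction k with
  | zero =>
    intro U hU hK
    simp only [F, Finset.sum_const, nsmul_eq_mul, mul_one, pow_zero, one_mul, add_zero]
    exact hN U hU (by omega)
  | succ k ih =>
    intro U hU hK
    have h1 : ∑ x ∈ Box.filter (fun x => U ⊆ S x), F w (k + 1) U (S x) =
        ∑ v ∈ V₀ \ U, w v * ∑ x ∈ Box.filter (fun x => insert v U ⊆ S x),
          F w k (insert v U) (S x) := by
      simp only [F, Finset.mul_sum]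
      apply Finset.sum_comm'
      intro x v
      simp only [Finset.mem_filter, Finset.mem_sdiff, Finset.insert_subset_iff]
      constructor
      · rintro ⟨⟨h1, h2⟩, h3, h4⟩
        exact ⟨⟨h1, h3, h2⟩, hS x h1 h3, h4⟩
      · rintro ⟨⟨h1, h3, h2⟩, _, h4⟩
        exact ⟨⟨h1, h2⟩, h3, h4⟩
    rw [h1]
    have h2 : ∀ v ∈ V₀ \ U, w v * ∑ x ∈ Box.filter (fun x => insert v U ⊆ S x),
          F w k (insert v U) (S x) ≤
        w v * ((∑ v ∈ V₀, w v) ^ k * (r ^ (U.card + (k + 1)) * B)) := by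
      intro v hv
      refine mul_le_mul_of_nonneg_left ?_ (hw v)
      obtain ⟨h3, h4⟩ := Finset.mem_sdiff.1 hv
      have h5 := ih (insert v U) (Finset.insert_subset h3 hU) (by
        rw [Finset.card_insert_of_notMem h4]; omega)
      rw [Finset.card_insert_of_notMem h4] at h5
      rwa [show U.card + 1 + k = U.card + (k + 1) by ring] at h5
    refine (Finset.sum_le_sum h2).trans ?_
    rw [← Finset.sum_mul]
    have h6 : ∑ v ∈ V₀ \ U, w v ≤ ∑ v ∈ V₀, w v :=
      Finset.sum_le_sum_of_subset_of_nonneg Finset.sdiff_subset fun v _ _ => hw v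
    have h7 : 0 ≤ ∑ v ∈ V₀, w v := Finset.sum_nonneg fun v _ => hw v
    calc (∑ v ∈ V₀ \ U, w v) * ((∑ v ∈ V₀, w v) ^ k * (r ^ (U.card + (k + 1)) * B))
        ≤ (∑ v ∈ V₀, w v) * ((∑ v ∈ V₀, w v) ^ k * (r ^ (U.card + (k + 1)) * B)) :=
          mul_le_mul_of_nonneg_right h6 (by positivity)
      _ = _ := by ring

/-- **Concentration.** -/
theorem conc {α : Type*} {w : V → ℝ} (hw : ∀ v, 0 ≤ w v) (V₀ : Finset V) (Box : Finset α)
    (S : α → Finset V) (hS : ∀ x ∈ Box, S x ⊆ V₀) {B : ℝ} (hB : 0 ≤ B) {k : ℕ}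
    (hN : ∀ U ⊆ V₀, U.card ≤ k →
      (((Box.filter fun x => U ⊆ S x).card : ℕ) : ℝ) ≤ (3 / 5) ^ U.card * B)
    {η : ℝ} (hη0 : 0 ≤ η) (hη : ∀ v ∈ V₀, w v ≤ η) (hJ : 0 < ∑ v ∈ V₀, w v)
    (hk : k * η ≤ (∑ v ∈ V₀, w v) / 10) :
    (((Box.filter fun x => 9 / 10 * ∑ v ∈ V₀, w v ≤ ∑ v ∈ S x, w v).card : ℕ) : ℝ) ≤
      (3 / 4) ^ k * B := by
  obtain ⟨J, hJd⟩ : ∃ J : ℝ, J = ∑ v ∈ V₀, w v := ⟨_, rfl⟩
  rw [← hJd] at hJ hk ⊢
  have h1 := F_upper hw V₀ Box S hS (by norm_num) hB hN k ∅ (Finset.empty_subset _) (by simp)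
  rw [← hJd] at h1
  simp only [Finset.empty_subset, Finset.filter_true, Finset.card_empty, zero_add] at h1
  have h2 : (((Box.filter fun x => 9 / 10 * J ≤ ∑ v ∈ S x, w v).card : ℕ) : ℝ) *
      (4 / 5 * J) ^ k ≤ ∑ x ∈ Box, F w k ∅ (S x) := by
    calc _ = ∑ _x ∈ Box.filter (fun x => 9 / 10 * J ≤ ∑ v ∈ S x, w v), (4 / 5 * J) ^ k := by
          rw [Finset.sum_const, nsmul_eq_mul]
      _ ≤ ∑ x ∈ Box.filter (fun x => 9 / 10 * J ≤ ∑ v ∈ S x, w v), F w k ∅ (S x) := by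
          refine Finset.sum_le_sum fun x hx => ?_
          obtain ⟨hx1, hx2⟩ := Finset.mem_filter.1 hx
          have h3 := F_lower hw hη0 (S x) (fun v hv => hη v (hS x hx1 hv)) hx2 k ∅
          simp only [Finset.card_empty, Nat.cast_zero, zero_add] at h3
          have h4 : 4 / 5 * J ≤ 9 / 10 * J - k * η := by linarith
          have h5 : 0 ≤ 9 / 10 * J - k * η := by linarith
          exact (pow_le_pow_left₀ (by positivity) h4 k).trans (h3 h5)
      _ ≤ _ := Finset.sum_le_sum_of_subset_of_nonneg (Finset.filter_subset _ _)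
          fun x _ _ => F_nonneg hw _ _ _
  have h3 := h2.trans h1
  have h4 : 0 < (4 / 5 * J) ^ k := by positivity
  rw [← le_div_iff₀ h4] at h3
  refine h3.trans (le_of_eq ?_)
  have h5 : (3 / 4 : ℝ) ^ k * (4 / 5 * J) ^ k = J ^ k * (3 / 5) ^ k := by
    rw [← mul_pow, ← mul_pow]
    congr 1
    ring
  rw [div_eq_iff h4.ne']
  linear_combination -B * h5

end Pool.Agent.V5helper58.TW
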