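import Mathlib
import Pool.Agent.TH910.LS.Dup
import Pool.Agent.V5helper58.TW.Rec
import Pool.Agent.V5helper58.TW.NonS

/-! Almost all quadratic twists of an elliptic curve whose invariant has large height. -/

set_option autoImplicit false
set_option linter.unusedSectionVars false

open Height NumberField Module Finset IsDedekindDomain
open WeierstrassCurve Pool.Agent.H951R3.PB TH951.LS TH951
open Pool.Agent.TH942 Pool.Agent.TH910.LS Pool.Agent.Y725.LS Pool.Agent.V5helper58.LA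

namespace Pool.Agent.V5helper58.TW

theorem jinv_twist {K : Type} [Field K] [NumberField K] {a b d : K} (hd : d ≠ 0) :
    jinv (a * d ^ 2) (b * d ^ 3) = jinv a b := by
  unfold jinv
  have e1 : 6912 * (a * d ^ 2) ^ 3 = 6912 * a ^ 3 * d ^ 6 := by ring
  have e2 : 4 * (a * d ^ 2) ^ 3 + 27 * (b * d ^ 3) ^ 2 =
      (4 * a ^ 3 + 27 * b ^ 2) * d ^ 6 := by ring
  rw [e1, e2, mul_div_mul_right _ _ (pow_ne_zero 6 hd)]

/-- the algebraic integer with positive coordinates `x` -/
theorem coord_ne {K : Type} [Field K] [NumberField K] {ι : Type} [Fintype ι]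
    (ω : Module.Basis ι ℤ (𝓞 K)) {x : ι → ℕ} (hx : ∀ i, 1 ≤ x i) :
    ((∑ i, x i • ω i : 𝓞 K) : K) ≠ 0 := by
  intro h
  have h0 : (∑ i, x i • ω i : 𝓞 K) = 0 := by
    apply RingOfIntegers.coe_injective (K := K)
    exact h.trans (map_zero _).symm
  have hli := Fintype.linearIndependent_iff.1 ω.linearIndependent (fun i => (x i : ℤ)) (by
    simpa only [natCast_zsmul] using h0)
  haveI : Nonempty ι := by
    by_contra hne
    rw [not_nonempty_iff] at hne
    have h1 := Module.finrank_eq_card_basis ω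
    rw [Fintype.card_eq_zero, RingOfIntegers.rank] at h1
    have h2 : 0 < finrank ℚ K := finrank_pos
    omega
  obtain ⟨i⟩ := (inferInstance : Nonempty ι)
  have h1 := hli i
  have h2 := hx i
  have h3 : x i = 0 := by exact_mod_cast h1
  omega

/-- the size of a pole -/
theorem log_norm_le {K : Type} [Field K] [NumberField K] {j : K} (hj : j ≠ 0)
    {v : HeightOneSpectrum (𝓞 K)} (hv : 1 < (FinitePlace.mk v).val j) :
    Real.log (Ideal.absNorm v.asIdeal) ≤ Real.log ((FinitePlace.mk v).val j) := by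
  obtain ⟨k, hk⟩ := NF.Nm_pow (FinitePlace.mk v) hj
  have hk' : (FinitePlace.mk v).val j = (NF.Nm (FinitePlace.mk v) : ℝ) ^ k := hk
  have hN : (1 : ℝ) < NF.Nm (FinitePlace.mk v) := by exact_mod_cast NF.one_lt_Nm _
  have hk0 : 1 ≤ k := by
    by_contra hcon
    push Not at hcon
    have h5 : (NF.Nm (FinitePlace.mk v) : ℝ) ^ k ≤ 1 :=
      zpow_le_one_of_nonpos₀ hN.le (by omega)
    rw [hk'] at hv
    linarith
  have hNe : (NF.Nm (FinitePlace.mk v) : ℝ) = Ideal.absNorm v.asIdeal := by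
    unfold NF.Nm
    rw [FinitePlace.maximalIdeal_mk]
  rw [← hNe, hk']
  apply Real.log_le_log (by linarith)
  calc (NF.Nm (FinitePlace.mk v) : ℝ) = (NF.Nm (FinitePlace.mk v) : ℝ) ^ (1 : ℤ) := by
        rw [zpow_one]
    _ ≤ _ := zpow_le_zpow_right₀ hN.le hk0

open Classical in
/-- **Almost all twists, large height.** -/
theorem large (D : ℕ) {θ : ℝ} (hθ : 0 < θ) : ∃ C A : ℝ, 0 < C ∧ 0 ≤ A ∧
    ∀ (K : Type) [Field K] [NumberField K], finrank ℚ K ≤ D →
    ∀ a b : K, a ≠ 0 → b ≠ 0 → 4 * a ^ 3 + 27 * b ^ 2 ≠ 0 →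
    A < logHeight₁ (jinv a b) / finrank ℚ K →
    ∀ (ι : Type) [Fintype ι] (ω : Module.Basis ι ℤ (𝓞 K)) (X k : ℕ), 1 ≤ k →
      θ * (logHeight₁ (jinv a b) / finrank ℚ K) ≤ Real.log X →
      (((Fintype.piFinset fun _ : ι => Finset.Icc 1 X).filter fun x : ι → ℕ =>
        ¬ ∀ P : SPt (a * ((∑ i, x i • ω i : 𝓞 K) : K) ^ 2) (b * ((∑ i, x i • ω i : 𝓞 K) : K) ^ 3),
          ¬ IsOfFinAddOrder P → logHeight₁ (jinv a b) / finrank ℚ K ≤
            C * (k : ℝ) ^ 6 * (chat P / finrank ℚ K)).card : ℝ) ≤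
        (3 / 4) ^ k * (2 * X) ^ Fintype.card ι := by
  obtain ⟨N₀, c₀, δ, hc₀, hδ, hfam⟩ := family'.{0} D 0 0
  obtain ⟨A₀, hA₀, hfam⟩ := hfam 6 (by norm_num)
  obtain ⟨C₁, A₁, hC₁, hA₁, hone⟩ := one_place D
  obtain ⟨C₂, A₂, hC₂, hA₂, hns⟩ := nonsplit_case D (ε := δ / 10) (by positivity)
  obtain ⟨η, hη⟩ : ∃ η : ℝ, η = min 1 (min (δ / 10) (θ / (D + 1))) := ⟨_, rfl⟩
  have hη0 : 0 < η := by rw [hη]; exact lt_min one_pos (lt_min (by positivity) (by positivity))
  have hη1 : η ≤ 1 := by rw [hη]; exact min_le_left _ _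
  have hηδ : η ≤ δ / 10 := by rw [hη]; exact (min_le_right _ _).trans (min_le_left _ _)
  have hηθ : η ≤ θ / (D + 1) := by rw [hη]; exact (min_le_right _ _).trans (min_le_right _ _)
  refine ⟨(N₀ : ℝ) ^ 2 / c₀ + C₁ / η ^ 6 + C₂, A₀ + A₁ + A₂, by positivity, by positivity, ?_⟩
  intro K _ _ hK a b ha hb hab hA ι _ ω X k hk hX
  have hd : (0 : ℝ) < finrank ℚ K := by exact_mod_cast (finrank_pos : 0 < finrank ℚ K)
  have hdD : (finrank ℚ K : ℝ) ≤ D := by exact_mod_cast hK
  have hk1 : (1 : ℝ) ≤ k := by exact_mod_cast hk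
  obtain ⟨h, hh⟩ : ∃ h : ℝ, h = logHeight₁ (jinv a b) / finrank ℚ K := ⟨_, rfl⟩
  rw [← hh] at hA hX ⊢
  have hh0 : 0 < h := by linarith
  have hH : logHeight₁ (jinv a b) = finrank ℚ K * h := by rw [hh]; field_simp
  have hj0 : jinv a b ≠ 0 := by
    unfold jinv
    exact div_ne_zero (mul_ne_zero (by norm_num) (pow_ne_zero _ ha)) hab
  -- it is enough to control the bad set
  have hgood : ∀ x ∈ (Fintype.piFinset fun _ : ι => Finset.Icc 1 X),
      ((∑ i, x i • ω i : 𝓞 K) : K) ≠ 0 := by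
    intro x hx
    exact coord_ne ω fun i => (Finset.mem_Icc.1 (Fintype.mem_piFinset.1 hx i)).1
  have hB0 : (0 : ℝ) ≤ (3 / 4) ^ k * (2 * X) ^ Fintype.card ι := by positivity
  have hempty : (∀ x ∈ (Fintype.piFinset fun _ : ι => Finset.Icc 1 X),
      ∀ P : SPt (a * ((∑ i, x i • ω i : 𝓞 K) : K) ^ 2) (b * ((∑ i, x i • ω i : 𝓞 K) : K) ^ 3),
          ¬ IsOfFinAddOrder P → h ≤ ((N₀ : ℝ) ^ 2 / c₀ + C₁ / η ^ 6 + C₂) * (k : ℝ) ^ 6 *
            (chat P / finrank ℚ K)) →
      (((Fintype.piFinset fun _ : ι => Finset.Icc 1 X).filter fun x : ι → ℕ =>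
        ¬ ∀ P : SPt (a * ((∑ i, x i • ω i : 𝓞 K) : K) ^ 2) (b * ((∑ i, x i • ω i : 𝓞 K) : K) ^ 3),
          ¬ IsOfFinAddOrder P → h ≤ ((N₀ : ℝ) ^ 2 / c₀ + C₁ / η ^ 6 + C₂) * (k : ℝ) ^ 6 *
            (chat P / finrank ℚ K)).card : ℝ) ≤ (3 / 4) ^ k * (2 * X) ^ Fintype.card ι := by
    intro hall
    rw [Finset.filter_eq_empty_iff.2 (fun x hx hcon => hcon (hall x hx)), Finset.card_empty,
      Nat.cast_zero]
    exact hB0
  -- comparison of the constants
  have hk6 : (1 : ℝ) ≤ (k : ℝ) ^ 6 := one_le_pow₀ hk1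
  -- the poles
  set V₀ : Finset (HeightOneSpectrum (𝓞 K)) := ((F4_finite_ne hj0).toFinset.filter
    (fun v => v.val (6 : K) = 1 ∧ 1 < v.val (jinv a b))).image FinitePlace.maximalIdeal with hV₀
  have hV : ∀ v, v ∈ V₀ ↔ (FinitePlace.mk v).val (6 : K) = 1 ∧
      1 < (FinitePlace.mk v).val (jinv a b) := by
    intro v
    rw [hV₀, Finset.mem_image]
    constructor
    · rintro ⟨u, hu, rfl⟩
      rw [FinitePlace.mk_maximalIdeal]
      exact (Finset.mem_filter.1 hu).2
    · intro hv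
      refine ⟨FinitePlace.mk v, ?_, FinitePlace.maximalIdeal_mk v⟩
      rw [Finset.mem_filter, Set.Finite.mem_toFinset, Set.mem_ofPred_eq]
      exact ⟨hv.2.ne', hv⟩
  obtain ⟨w, hw⟩ : ∃ w : HeightOneSpectrum (𝓞 K) → ℝ, w = fun v =>
      Real.log (max ((FinitePlace.mk v).val (jinv a b)) 1) := ⟨_, rfl⟩
  have hw0 : ∀ v, 0 ≤ w v := fun v => by
    rw [hw]; exact Real.log_nonneg (le_max_right _ _)
  have hwV : ∀ v ∈ V₀, w v = Real.log ((FinitePlace.mk v).val (jinv a b)) := by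
    intro v hv
    rw [hw]
    simp only
    rw [max_eq_left ((hV v).1 hv).2.le]
  obtain ⟨J, hJ⟩ : ∃ J : ℝ, J = ∑ v ∈ V₀, w v := ⟨_, rfl⟩
  by_cases hJs : J ≤ δ * (finrank ℚ K * h)
  · -- `j` is nearly integral
    apply hempty
    intro x hx P hP
    obtain ⟨d, hdx⟩ : ∃ d : K, d = ((∑ i, x i • ω i : 𝓞 K) : K) := ⟨_, rfl⟩
    have hd0 : d ≠ 0 := by rw [hdx]; exact hgood x hx
    revert P
    rw [← hdx]
    intro P hP
    have hab' := disc_twist hab hd0
    have hell : (sw (a * d ^ 2) (b * d ^ 3)).IsElliptic := sw_ell hab'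
    have hjj : (sw (a * d ^ 2) (b * d ^ 3)).j = jinv a b := by
      rw [jinv_eq _ _ hell, jinv_twist hd0]
    have hlim : ∀ Q : SPt (a * d ^ 2) (b * d ^ 3), Filter.Tendsto (fun n : ℕ =>
        logHeight ((2 ^ n • Q).xRep) / (4 ^ n * Module.finrank ℚ K)) Filter.atTop
        (nhds (chat Q / Module.finrank ℚ K)) := by
      intro Q
      have h := ((chat_spec hab').1 Q).div_const (Module.finrank ℚ K : ℝ)
      refine h.congr fun n => ?_
      rw [div_div]
      rfl
    obtain ⟨i, hi⟩ := hfam K hK (sw (a * d ^ 2) (b * d ^ 3)) ∅ ∅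
      (fun v hv => absurd hv (Finset.notMem_empty v)) (by simp) (by
        intro S hS
        rw [hjj, zero_mul, zero_add, hH]
        refine le_trans ?_ hJs
        have h1 : ∑ v ∈ S, Real.log (v.val (jinv a b)) =
            ∑ v ∈ S.image FinitePlace.maximalIdeal, w v := by
          rw [Finset.sum_image (FinitePlace.maximalIdeal_injective (K := K)).injOn]
          refine Finset.sum_congr rfl fun v hv => ?_
          rw [hw]
          simp only
          rw [FinitePlace.mk_maximalIdeal, max_eq_left]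
          have := (hS v hv).2.2
          rw [hjj] at this
          exact this.le
        rw [h1, hJ]
        refine Finset.sum_le_sum_of_subset_of_nonneg ?_ fun v _ _ => hw0 v
        intro v hv
        obtain ⟨u, hu, rfl⟩ := Finset.mem_image.1 hv
        rw [hV, FinitePlace.mk_maximalIdeal]
        have := hS u hu
        rw [hjj] at this
        exact ⟨by simpa using this.2.1, this.2.2⟩)
      (by rw [hjj, ← hh]; linarith) (fun Q => chat Q / finrank ℚ K) hlim
      (fun i => ((i : ℕ) + 1) • P) (fun i l hil => by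
        rcases lt_or_gt_of_ne (fun h => hil (Fin.ext h) : (i : ℕ) ≠ l) with h | h
        · exact mult_ne hP (by omega) (by omega)
        · exact (mult_ne hP (by omega) (by omega)).symm)
    rw [Finset.sum_empty, zero_div, add_zero, hjj, ← hh] at hi
    rw [chat_nsmul hab'] at hi
    have hc : 0 ≤ chat P / finrank ℚ K := div_nonneg ((chat_spec hab').2.1 P) hd.le
    have h1 : ((i : ℕ) + 1 : ℝ) ≤ N₀ := by
      have := i.2
      exact_mod_cast this
    have h2 : c₀ * h ≤ (N₀ : ℝ) ^ 2 * (chat P / finrank ℚ K) := by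
      refine hi.trans ?_
      rw [mul_div_assoc]
      refine mul_le_mul_of_nonneg_right ?_ hc
      push_cast
      exact pow_le_pow_left₀ (by positivity) h1 2
    calc h ≤ (N₀ : ℝ) ^ 2 / c₀ * (chat P / finrank ℚ K) := by
          rw [div_mul_eq_mul_div, le_div_iff₀ hc₀]; linarith
      _ ≤ ((N₀ : ℝ) ^ 2 / c₀ + C₁ / η ^ 6 + C₂) * (k : ℝ) ^ 6 * (chat P / finrank ℚ K) := by
          refine mul_le_mul_of_nonneg_right ?_ hc
          have h3 : 0 ≤ C₁ / η ^ 6 := by positivity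
          have h4 : 0 ≤ (N₀ : ℝ) ^ 2 / c₀ := by positivity
          calc (N₀ : ℝ) ^ 2 / c₀ ≤ ((N₀ : ℝ) ^ 2 / c₀ + C₁ / η ^ 6 + C₂) * 1 := by linarith
            _ ≤ _ := mul_le_mul_of_nonneg_left hk6 (by positivity)
  push Not at hJs
  by_cases hbig : ∃ v ∈ V₀, η / k * (finrank ℚ K * h) ≤ w v
  · -- one large place
    obtain ⟨v, hv, hvw⟩ := hbig
    apply hempty
    intro x hx P hP
    obtain ⟨d, hdx⟩ : ∃ d : K, d = ((∑ i, x i • ω i : 𝓞 K) : K) := ⟨_, rfl⟩
    have hd0 : d ≠ 0 := by rw [hdx]; exact hgood x hx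
    revert P
    rw [← hdx]
    intro P hP
    have hab' := disc_twist hab hd0
    have hc : 0 ≤ chat P / finrank ℚ K := div_nonneg ((chat_spec hab').2.1 P) hd.le
    have hk0 : (0 : ℝ) < k := by linarith
    have h1 := hone K hK _ _ hab' (by rw [jinv_twist hd0, ← hh]; linarith) P hP
      (FinitePlace.mk v) (η / k) ((hV v).1 hv).1 (by positivity)
      (by rw [div_le_one hk0]; linarith) (by
        rw [jinv_twist hd0, hH, ← hwV v hv]
        exact hvw)
    rw [jinv_twist hd0, ← hh, div_pow] at h1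
    have h2 : h ≤ C₁ / η ^ 6 * (k : ℝ) ^ 6 * (chat P / finrank ℚ K) := by
      have h3 : 0 < η ^ 6 := by positivity
      have h4 : 0 < (k : ℝ) ^ 6 := by positivity
      rw [div_mul_eq_mul_div, div_le_iff₀ h4] at h1
      rw [div_mul_eq_mul_div, div_mul_eq_mul_div, le_div_iff₀ h3]
      linarith
    refine h2.trans ?_
    refine mul_le_mul_of_nonneg_right ?_ hc
    refine mul_le_mul_of_nonneg_right ?_ (by positivity)
    have h4 : 0 ≤ (N₀ : ℝ) ^ 2 / c₀ := by positivity
    linarith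
  push Not at hbig
  -- concentration
  have hk0 : (0 : ℝ) < k := by linarith
  have hHp : 0 < finrank ℚ K * h := by positivity
  have hJ0 : 0 < J := lt_trans (by positivity) hJs
  obtain ⟨m, hm⟩ : ∃ m : K, m = -2 * a * b := ⟨_, rfl⟩
  have hm0 : m ≠ 0 := by
    rw [hm]
    exact mul_ne_zero (mul_ne_zero (by norm_num) ha) hb
  set S : (ι → ℕ) → Finset (HeightOneSpectrum (𝓞 K)) := fun x => V₀.filter fun v =>
    Ideal.Quotient.mk v.asIdeal (∑ i, x i • ω i) ∈ Bset m v with hS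
  have hcard : ∀ U ⊆ V₀, U.card ≤ k →
      ((((Fintype.piFinset fun _ : ι => Finset.Icc 1 X).filter fun x => U ⊆ S x).card : ℕ) : ℝ) ≤
        (3 / 5) ^ U.card * (2 * X) ^ Fintype.card ι := by
    intro U hU hUk
    have h1 : ((Fintype.piFinset fun _ : ι => Finset.Icc 1 X).filter fun x => U ⊆ S x) =
        ((Fintype.piFinset fun _ : ι => Finset.Icc 1 X).filter fun x : ι → ℕ =>
          ∀ v ∈ U, Ideal.Quotient.mk v.asIdeal (∑ i, x i • ω i) ∈ Bset m v) := by
      apply Finset.filter_congr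
      intro x _
      rw [hS]
      constructor
      · intro h v hv
        exact (Finset.mem_filter.1 (h hv)).2
      · intro h v hv
        exact Finset.mem_filter.2 ⟨hU hv, h v hv⟩
    rw [h1]
    refine field_count ω U (Bset m) (fun v hv => Bset_card hm0 v ((hV v).1 (hU hv)).1) ?_
    -- the product of the norms
    have hpos : ∀ v : HeightOneSpectrum (𝓞 K), 0 < Ideal.absNorm v.asIdeal := fun v => by
      rw [← card_quot v]; exact Fintype.card_pos
    have hX0 : 0 < X := by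
      rcases Nat.eq_zero_or_pos X with h0 | h0
      · rw [h0] at hX
        simp only [Nat.cast_zero, Real.log_zero] at hX
        have : 0 < θ * h := by positivity
        linarith
      · exact h0
    have h2 : Real.log ((∏ v ∈ U, Ideal.absNorm v.asIdeal : ℕ) : ℝ) ≤ Real.log X := by
      rw [Nat.cast_prod, Real.log_prod (fun v _ => by exact_mod_cast (hpos v).ne')]
      refine le_trans ?_ hX
      calc ∑ v ∈ U, Real.log (Ideal.absNorm v.asIdeal) ≤ ∑ v ∈ U, w v := by
            refine Finset.sum_le_sum fun v hv => ?_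
            rw [hwV v (hU hv)]
            exact log_norm_le hj0 ((hV v).1 (hU hv)).2
        _ ≤ ∑ _v ∈ U, η / k * (finrank ℚ K * h) :=
            Finset.sum_le_sum fun v hv => (hbig v (hU hv)).le
        _ = U.card * (η / k * (finrank ℚ K * h)) := by rw [Finset.sum_const, nsmul_eq_mul]
        _ ≤ k * (η / k * (finrank ℚ K * h)) := by
            refine mul_le_mul_of_nonneg_right ?_ (by positivity)
            exact_mod_cast hUk
        _ = η * finrank ℚ K * h := by field_simp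
        _ ≤ θ * h := by
            refine mul_le_mul_of_nonneg_right ?_ hh0.le
            calc η * finrank ℚ K ≤ θ / (D + 1) * D := by gcongr
              _ ≤ θ := by
                rw [div_mul_eq_mul_div, div_le_iff₀ (by positivity)]
                nlinarith
    have h3 : (0 : ℝ) < ((∏ v ∈ U, Ideal.absNorm v.asIdeal : ℕ) : ℝ) := by
      exact_mod_cast Finset.prod_pos fun v _ => hpos v
    have h4 := (Real.log_le_log_iff h3 (by exact_mod_cast hX0)).1 h2
    exact_mod_cast h4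
  have hconc := conc hw0 V₀ (Fintype.piFinset fun _ : ι => Finset.Icc 1 X) S
    (fun x _ => Finset.filter_subset _ _) (B := (2 * X) ^ Fintype.card ι) (by positivity) hcard
    (η := η / k * (finrank ℚ K * h)) (by positivity) (fun v hv => (hbig v hv).le)
    (by rw [← hJ]; exact hJ0) (by
      rw [← hJ]
      calc (k : ℝ) * (η / k * (finrank ℚ K * h)) = η * (finrank ℚ K * h) := by field_simp
        _ ≤ δ / 10 * (finrank ℚ K * h) := mul_le_mul_of_nonneg_right hηδ hHp.le
        _ ≤ J / 10 := by linarith)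
  rw [← hJ] at hconc
  refine le_trans ?_ hconc
  apply Nat.cast_le.2
  apply Finset.card_le_card
  intro x hx
  obtain ⟨hx1, hx2⟩ := Finset.mem_filter.1 hx
  rw [Finset.mem_filter]
  refine ⟨hx1, ?_⟩
  by_contra hcon
  push Not at hcon
  apply hx2
  intro P hP
  obtain ⟨d, hdx⟩ : ∃ d : K, d = ((∑ i, x i • ω i : 𝓞 K) : K) := ⟨_, rfl⟩
  have hd0 : d ≠ 0 := by rw [hdx]; exact hgood x hx1
  revert P
  rw [← hdx]
  intro P hP
  have hab' := disc_twist hab hd0
  have hc : 0 ≤ chat P / finrank ℚ K := div_nonneg ((chat_spec hab').2.1 P) hd.le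
  have hinj : Function.Injective (FinitePlace.mk (K := K)) := fun v₁ v₂ h =>
    FinitePlace.mk_eq_iff.1 h
  have h1 := hns K hK _ _ hab' (by rw [jinv_twist hd0, ← hh]; linarith)
    ((V₀ \ S x).image FinitePlace.mk) ?_ ?_ P hP
  · rw [jinv_twist hd0, ← hh] at h1
    refine h1.trans ?_
    refine mul_le_mul_of_nonneg_right ?_ hc
    have h3 : 0 ≤ C₁ / η ^ 6 := by positivity
    have h4 : 0 ≤ (N₀ : ℝ) ^ 2 / c₀ := by positivity
    calc C₂ ≤ ((N₀ : ℝ) ^ 2 / c₀ + C₁ / η ^ 6 + C₂) * 1 := by linarith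
      _ ≤ _ := mul_le_mul_of_nonneg_left hk6 (by positivity)
  · intro u hu
    obtain ⟨v, hv, rfl⟩ := Finset.mem_image.1 hu
    obtain ⟨hv1, hv2⟩ := Finset.mem_sdiff.1 hv
    rw [jinv_twist hd0]
    refine ⟨((hV v).1 hv1).1, ((hV v).1 hv1).2, ?_⟩
    intro z hz
    have h2 : Ideal.Quotient.mk v.asIdeal (∑ i, x i • ω i) ∉ Bset m v := by
      intro h
      exact hv2 (Finset.mem_filter.2 ⟨hv1, h⟩)
    obtain ⟨h3, h4⟩ := mem_Bset h2
    apply h4
    refine ⟨z / d ^ 2, ?_⟩
    have e1 : z ^ 2 = (z / d ^ 2) ^ 2 * (d ^ 2) ^ 2 := by field_simp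
    have e2 : -2 * (a * d ^ 2) * (b * d ^ 3) = m * d * (d ^ 2) ^ 2 := by rw [hm]; ring
    rw [e1, e2] at hz
    have h5 := Nr.cancel (pow_ne_zero 2 (pow_ne_zero 2 hd0)) hz
    rw [hdx] at h5 ⊢
    exact h5
  · rw [jinv_twist hd0, hH, Finset.sum_image hinj.injOn]
    have h2 : ∑ v ∈ V₀ \ S x, Real.log ((FinitePlace.mk v).val (jinv a b)) =
        ∑ v ∈ V₀ \ S x, w v :=
      Finset.sum_congr rfl fun v hv => (hwV v (Finset.mem_sdiff.1 hv).1).symm
    rw [h2]
    have h3 : ∑ v ∈ V₀ \ S x, w v + ∑ v ∈ S x, w v = J := by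
      rw [hJ]
      exact Finset.sum_sdiff (Finset.filter_subset _ _)
    have hJs' : δ / 10 * (finrank ℚ K * h) ≤ J / 10 := by linarith
    linarith

end Pool.Agent.V5helper58.TW
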