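import Mathlib
import Pool.Agent.Y733.LS.Bad
import Pool.Agent.V5helper58.TW.Large

/-! Almost all quadratic twists of every elliptic curve. -/

set_option autoImplicit false
set_option linter.unusedSectionVars false

open Height NumberField Module Finset IsDedekindDomain
open WeierstrassCurve Pool.Agent.TH942 Pool.Agent.TH910.LS

namespace Pool.Agent.V5helper58.TW

/-- the constant for the bad primes -/
noncomputable def C5 : ℝ := 4 * Y733.LS.C3 + (Real.log 6 + Real.log 1729)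

theorem C5_nonneg : 0 ≤ C5 := by
  unfold C5 Y733.LS.C3
  have h1 : 0 ≤ Real.log 6912 := Real.log_nonneg (by norm_num)
  have h2 : 0 ≤ Real.log 250 := Real.log_nonneg (by norm_num)
  have h3 : 0 ≤ Real.log ((4 * 6912 * 46656 : ℕ) : ℝ) := Real.log_natCast_nonneg _
  have h4 : 0 ≤ Real.log 6 := Real.log_nonneg (by norm_num)
  have h5 : 0 ≤ Real.log 1729 := Real.log_nonneg (by norm_num)
  positivity

/-- **The bad primes.** -/
theorem bad_le {K : Type} [Field K] [NumberField K] [DecidableEq K] {a b : K} (ha : a ≠ 0)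
    (hb : b ≠ 0) (hD : 4 * a ^ 3 + 27 * b ^ 2 ≠ 0) {P : SPt a b} (hP : ¬ IsOfFinAddOrder P)
    (S : Finset (HeightOneSpectrum (𝓞 K))) (hS : ∀ v ∈ S, Y733.LS.BadAt a b v) :
    ∑ v ∈ S, Real.log (Ideal.absNorm v.asIdeal) ≤
      4 * chat P + 4 * logHeight₁ (jinv a b) + finrank ℚ K * C5 := by
  obtain ⟨T, hT, hTS⟩ := Y733.LS.bad_sum ha hb hD S hS
  have h1 := Y733.LS.chat_ge ha hb hD P (fun k h0 => hP (by
    rw [isOfFinAddOrder_iff_nsmul_eq_zero]
    exact ⟨2 ^ k, by positivity, h0⟩)) T hT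
  have hsp : 0 ≤ Y733.LS.sp (Y733.LS.jj a b) := by
    unfold Y733.LS.sp
    refine finsum_nonneg fun v => ?_
    split_ifs
    · exact Real.log_natCast_nonneg _
    · exact le_rfl
  have hht : W223.AK.ht (Y733.LS.jj a b) = logHeight₁ (jinv a b) := by
    rw [Y733.LS.ht_eq_Sa, Y733.LS.logHeight_eq]
    rfl
  have hht0 := zero_le_logHeight₁ (jinv a b)
  rw [hht] at h1 hTS
  have hN : ∀ v : HeightOneSpectrum (𝓞 K), Real.log (H691R3.Nv v) =
      Real.log (Ideal.absNorm v.asIdeal) := fun v => rfl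
  simp only [hN] at h1 hTS
  unfold C5
  linarith

/-- the lower bound of Lang and Silverman for the powers of `y² = x³ + a x + b` -/
def LS (c : ℝ) {K : Type} [Field K] [NumberField K] [DecidableEq K] (a b : K) : Prop :=
  ∀ S : Finset (HeightOneSpectrum (𝓞 K)), (∀ v ∈ S, Y733.LS.BadAt a b v) →
    ∀ (g : ℕ) (M : Matrix (Fin g) (Fin g) ℤ), (M.map (Int.cast : ℤ → ℝ)).PosDef →
    ∀ P : Fin g → SPt a b, ¬ IsOfFinAddOrder P →
      c * (1 + logHeight₁ (jinv a b) / finrank ℚ K +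
        (∑ v ∈ S, Real.log (Ideal.absNorm v.asIdeal)) / finrank ℚ K) ≤ chatM M P / finrank ℚ K

theorem ls_of {K : Type} [Field K] [NumberField K] [DecidableEq K] {a b : K} (ha : a ≠ 0)
    (hb : b ≠ 0) (hD : 4 * a ^ 3 + 27 * b ^ 2 ≠ 0) {C : ℝ} (hC : 0 < C)
    (h : ∀ P : SPt a b, ¬ IsOfFinAddOrder P →
      1 + logHeight₁ (jinv a b) / finrank ℚ K ≤ C * (chat P / finrank ℚ K)) :
    LS (1 / (C + 4 + (4 + C5) * C)) a b := by
  intro S hS g M hM P hP
  have hd : (0 : ℝ) < finrank ℚ K := by exact_mod_cast (finrank_pos : 0 < finrank ℚ K)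
  obtain ⟨Q, -, hQ, hQP⟩ := reduction (a := a) (b := b) hD M hM P hP
  have h1 := h Q hQ
  have h2 := bad_le ha hb hD hQ S hS
  have h5 := C5_nonneg
  have hj := zero_le_logHeight₁ (jinv a b)
  obtain ⟨x, hx⟩ : ∃ x : ℝ, x = chat Q / finrank ℚ K := ⟨_, rfl⟩
  obtain ⟨y, hy⟩ : ∃ y : ℝ, y = logHeight₁ (jinv a b) / finrank ℚ K := ⟨_, rfl⟩
  obtain ⟨z, hz⟩ : ∃ z : ℝ, z = (∑ v ∈ S, Real.log (Ideal.absNorm v.asIdeal)) / finrank ℚ K :=
    ⟨_, rfl⟩
  have hy0 : 0 ≤ y := by rw [hy]; positivity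
  have hzle : z ≤ 4 * x + 4 * y + C5 := by
    rw [hz, hx, hy, div_le_iff₀ hd]
    refine h2.trans (le_of_eq ?_)
    field_simp
  have hxM : x ≤ chatM M P / finrank ℚ K := by
    rw [hx]
    exact div_le_div_of_nonneg_right hQP hd.le
  rw [← hx, ← hy] at h1
  rw [← hy, ← hz]
  refine le_trans ?_ hxM
  have h0 : 0 < C + 4 + (4 + C5) * C := by positivity
  rw [one_div, inv_mul_le_iff₀ h0]
  have h6 : 4 * y + C5 ≤ (4 + C5) * (C * x) := by
    calc 4 * y + C5 ≤ (4 + C5) * (1 + y) := by nlinarith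
      _ ≤ (4 + C5) * (C * x) := mul_le_mul_of_nonneg_left h1 (by linarith)
  linarith

theorem LS.mono {c c' : ℝ} {K : Type} [Field K] [NumberField K] [DecidableEq K] {a b : K}
    (h : LS c a b) (hc : c' ≤ c) : LS c' a b := by
  intro S hS g M hM P hP
  refine le_trans (mul_le_mul_of_nonneg_right hc ?_) (h S hS g M hM P hP)
  have h1 := zero_le_logHeight₁ (jinv a b)
  have h2 : 0 ≤ ∑ v ∈ S, Real.log (Ideal.absNorm v.asIdeal) :=
    Finset.sum_nonneg fun v _ => Real.log_natCast_nonneg _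
  positivity

/-- the height of a natural number -/
theorem ht_nat_eq {K : Type} [Field K] [NumberField K] {n : ℕ} (hn : 1 ≤ n) :
    logHeight₁ ((n : ℕ) : K) = finrank ℚ K * Real.log n := by
  rw [Y733.LS.logHeight_eq, ← Y733.LS.Sm_const]
  unfold Y733.LS.Sa Y733.LS.Sm
  have hn1 : (1 : ℝ) ≤ n := by exact_mod_cast hn
  congr 1
  · refine Finset.sum_congr rfl fun w _ => ?_
    have h1 := Y733.LS.inf_nat w n
    change (w.mult : ℝ) * Real.log (max (w.1 (n : K)) 1) = w.mult * Real.log n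
    rw [h1, max_eq_left hn1]
  · refine finsum_congr fun v => ?_
    change Real.log (max (H691R3.fv v (n : K)) 1) = 0
    rw [max_eq_right ((Y733.LS.fv_Na v).nat n), Real.log_one]

/-- the curves with `j = 0` or `j = 1728` -/
theorem ls_cm {K : Type} [Field K] [NumberField K] [DecidableEq K] {a b : K}
    (hab0 : a = 0 ∨ b = 0) (hD : 4 * a ^ 3 + 27 * b ^ 2 ≠ 0) {c₁ A : ℝ} (hc₁ : 0 < c₁)
    {n₁ : ℕ} (hg : GoodAt c₁ n₁ a b) (hA : logHeight₁ (jinv a b) / finrank ℚ K ≤ A)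
    (hA0 : 0 ≤ A) : LS (c₁ / ((2 + A) * finrank ℚ K)) a b := by
  intro S hS g M hM P hP
  have hd : (0 : ℝ) < finrank ℚ K := by exact_mod_cast (finrank_pos : 0 < finrank ℚ K)
  have hd1 : (1 : ℝ) ≤ finrank ℚ K := by exact_mod_cast (finrank_pos : 0 < finrank ℚ K)
  obtain ⟨Q, -, hQ, hQP⟩ := reduction (a := a) (b := b) hD M hM P hP
  have hj1 : ∀ v : HeightOneSpectrum (𝓞 K), H691R3.fv v (jinv a b) ≤ 1 := by
    intro v
    rcases hab0 with h | h
    · subst h
      unfold jinv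
      simp
    · subst h
      have ha : a ≠ 0 := by
        rintro rfl
        apply hD
        ring
      have e1 : jinv a 0 = (1728 : ℕ) := by
        unfold jinv
        field_simp
        push_cast
        ring
      rw [e1]
      exact (Y733.LS.fv_Na v).nat 1728
  have hRam : Ram a b S := by
    intro v hv u hu
    rcases hS v hv with h | h
    · apply h u
      have h1 := (FinitePlace.norm_embedding' (v := v) (x := 4 * a ^ 3 + 27 * b ^ 2))
      have h2 := (FinitePlace.norm_embedding' (v := v) (x := u))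
      have h3 : H691R3.fv v (Y733.LS.dl a b) = ‖FinitePlace.embedding v (4 * a ^ 3 + 27 * b ^ 2)‖ :=
        rfl
      have h4 : H691R3.fv v u = ‖FinitePlace.embedding v u‖ := rfl
      rw [h3, h4, h1, h2, hu, map_pow]
      push_cast
      rfl
    · have h2 : H691R3.fv v (Y733.LS.jj a b) = H691R3.fv v (jinv a b) := rfl
      rw [h2] at h
      exact absurd h (not_lt.2 (hj1 v))
  have h1 := hg.2 S hRam Q hQ
  have h2 : 0 ≤ ∑ v ∈ S, Real.log (Ideal.absNorm v.asIdeal) := sum_log_nonneg S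
  obtain ⟨z, hz⟩ : ∃ z : ℝ, z = ∑ v ∈ S, Real.log (Ideal.absNorm v.asIdeal) := ⟨_, rfl⟩
  obtain ⟨y, hy⟩ : ∃ y : ℝ, y = logHeight₁ (jinv a b) / finrank ℚ K := ⟨_, rfl⟩
  rw [← hz] at h1 h2 ⊢
  rw [← hy] at hA ⊢
  refine le_trans ?_ (div_le_div_of_nonneg_right hQP hd.le)
  have h3 : 1 + y + z / finrank ℚ K ≤ (2 + A) * (1 + z) := by
    have h4 : z / finrank ℚ K ≤ z := div_le_self h2 hd1
    nlinarith
  have h5 : c₁ / ((2 + A) * finrank ℚ K) * (1 + y + z / finrank ℚ K) ≤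
      c₁ / ((2 + A) * finrank ℚ K) * ((2 + A) * (1 + z)) :=
    mul_le_mul_of_nonneg_left h3 (by positivity)
  refine h5.trans ?_
  have h6 : c₁ / ((2 + A) * finrank ℚ K) * ((2 + A) * (1 + z)) = c₁ * (1 + z) / finrank ℚ K := by
    field_simp
  rw [h6]
  exact div_le_div_of_nonneg_right h1 hd.le

open Classical in
/-- **Almost all quadratic twists.** -/
theorem main1 (D : ℕ) {θ : ℝ} (hθ : 0 < θ) : ∃ c A : ℝ, 0 < c ∧
    ∀ (K : Type) [Field K] [NumberField K], finrank ℚ K ≤ D → ∃ c₀ : ℝ, 0 < c₀ ∧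
    ∀ a b : K, 4 * a ^ 3 + 27 * b ^ 2 ≠ 0 →
    ∀ (ι : Type) [Fintype ι] (ω : Module.Basis ι ℤ (𝓞 K)) (X k : ℕ), 1 ≤ k →
      θ * (logHeight₁ (jinv a b) / finrank ℚ K) ≤ Real.log X →
      (((Fintype.piFinset fun _ : ι => Finset.Icc 1 X).filter fun x : ι → ℕ =>
        ¬ LS ((if A < logHeight₁ (jinv a b) / finrank ℚ K then c else c₀) / (k : ℝ) ^ 6)
          (a * ((∑ i, x i • ω i : 𝓞 K) : K) ^ 2) (b * ((∑ i, x i • ω i : 𝓞 K) : K) ^ 3)).card :
            ℝ) ≤
        (3 / 4) ^ k * (2 * X) ^ Fintype.card ι := by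
  obtain ⟨C, A₁, hC, hA₁, hlarge⟩ := large D hθ
  obtain ⟨A, hA⟩ : ∃ A : ℝ, A = A₁ + 1 + Real.log 1728 := ⟨_, rfl⟩
  have hl1728 : 0 ≤ Real.log 1728 := Real.log_nonneg (by norm_num)
  have h5 := C5_nonneg
  obtain ⟨C', hC'⟩ : ∃ C' : ℝ, C' = 2 * C + 4 + (4 + C5) * (2 * C) := ⟨_, rfl⟩
  have hC'0 : 0 < C' := by rw [hC']; positivity
  refine ⟨1 / C', A, by positivity, ?_⟩
  intro K _ _ hK
  have hd : (0 : ℝ) < finrank ℚ K := by exact_mod_cast (finrank_pos : 0 < finrank ℚ K)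
  obtain ⟨c₁, hc₁, n₁, hgood⟩ := good_height (K := K) (A * finrank ℚ K)
  obtain ⟨C₂, hC₂⟩ : ∃ C₂ : ℝ, C₂ = (1 + A) / c₁ * finrank ℚ K := ⟨_, rfl⟩
  have hC₂0 : 0 < C₂ := by rw [hC₂, hA]; positivity
  have hA0 : 0 ≤ A := by rw [hA]; positivity
  refine ⟨min (1 / (C₂ + 4 + (4 + C5) * C₂)) (c₁ / ((2 + A) * finrank ℚ K)),
    lt_min (by positivity) (by positivity), ?_⟩
  intro a b hD ι _ ω X k hk hX
  have hk1 : (1 : ℝ) ≤ k := by exact_mod_cast hk
  have hk6 : (1 : ℝ) ≤ (k : ℝ) ^ 6 := one_le_pow₀ hk1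
  have hne : ∀ x ∈ (Fintype.piFinset fun _ : ι => Finset.Icc 1 X),
      ((∑ i, x i • ω i : 𝓞 K) : K) ≠ 0 := by
    intro x hx
    exact coord_ne ω fun i => (Finset.mem_Icc.1 (Fintype.mem_piFinset.1 hx i)).1
  by_cases hAj : A < logHeight₁ (jinv a b) / finrank ℚ K
  · have hab0 : a ≠ 0 ∧ b ≠ 0 := by
      constructor
      · rintro rfl
        have e1 : jinv (0 : K) b = 0 := by unfold jinv; simp
        rw [e1, logHeight₁_zero, zero_div] at hAj
        linarith
      · rintro rfl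
        have ha : a ≠ 0 := by
          rintro rfl
          apply hD
          ring
        have e1 : jinv a 0 = ((1728 : ℕ) : K) := by
          unfold jinv
          field_simp
          push_cast
          ring
        have e2 : logHeight₁ ((1728 : ℕ) : K) ≤ finrank ℚ K * Real.log 1728 := by
          rw [ht_nat_eq (by norm_num)]
          push_cast
          exact le_rfl
        rw [e1] at hAj
        have e3 : logHeight₁ ((1728 : ℕ) : K) / finrank ℚ K ≤ Real.log 1728 := by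
          rw [div_le_iff₀ hd]; linarith
        linarith
    obtain ⟨ha, hb⟩ := hab0
    rw [if_pos hAj]
    refine le_trans ?_ (hlarge K hK a b ha hb hD (by linarith) ι ω X k hk hX)
    apply Nat.cast_le.2
    apply Finset.card_le_card
    intro x hx
    obtain ⟨hx1, hx2⟩ := Finset.mem_filter.1 hx
    rw [Finset.mem_filter]
    refine ⟨hx1, fun hall => hx2 ?_⟩
    obtain ⟨d, hdx⟩ : ∃ d : K, d = ((∑ i, x i • ω i : 𝓞 K) : K) := ⟨_, rfl⟩
    have hd0 : d ≠ 0 := by rw [hdx]; exact hne x hx1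
    rw [← hdx] at hall ⊢
    have hD' := disc_twist hD hd0
    refine (ls_of (C := 2 * (C * (k : ℝ) ^ 6)) (mul_ne_zero ha (pow_ne_zero 2 hd0))
      (mul_ne_zero hb (pow_ne_zero 3 hd0)) hD' (by positivity) fun P hP => ?_).mono ?_
    · have h1 := hall P hP
      rw [jinv_twist hd0]
      linarith
    · rw [div_div, one_div_le_one_div (by positivity) (by positivity), hC']
      have e1 : 0 ≤ C5 * C := by positivity
      nlinarith
  · rw [if_neg hAj]
    push Not at hAj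
    rw [Finset.filter_eq_empty_iff.2, Finset.card_empty, Nat.cast_zero]
    · positivity
    intro x hx hcon
    apply hcon
    obtain ⟨d, hdx⟩ : ∃ d : K, d = ((∑ i, x i • ω i : 𝓞 K) : K) := ⟨_, rfl⟩
    have hd0 : d ≠ 0 := by rw [hdx]; exact hne x hx
    rw [← hdx]
    have hD' := disc_twist hD hd0
    by_cases hab0 : a = 0 ∨ b = 0
    · refine (ls_cm (A := A) (by
        rcases hab0 with h | h
        · left; rw [h, zero_mul]
        · right; rw [h, zero_mul]) hD' hc₁ (hgood _ _ hD' (by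
        rw [jinv_twist hd0]
        exact (div_le_iff₀ hd).1 hAj)) (by rw [jinv_twist hd0]; exact hAj) hA0).mono ?_
      rw [div_le_iff₀ (by positivity)]
      exact (min_le_right _ _).trans (le_mul_of_one_le_right (by positivity) hk6)
    push Not at hab0
    obtain ⟨ha, hb⟩ := hab0
    refine (ls_of (C := C₂) (mul_ne_zero ha (pow_ne_zero 2 hd0))
      (mul_ne_zero hb (pow_ne_zero 3 hd0)) hD' (by positivity) fun P hP => ?_).mono ?_
    · rw [jinv_twist hd0]
      have h1 := (hgood _ _ hD' (by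
        rw [jinv_twist hd0]
        exact (div_le_iff₀ hd).1 hAj)).2 ∅ (by
          intro v hv
          exact absurd hv (Finset.notMem_empty v)) P hP
      rw [Finset.sum_empty, add_zero, mul_one] at h1
      have h2 : (1 + A) / c₁ * finrank ℚ K * (chat P / finrank ℚ K) = (1 + A) * (chat P / c₁) := by
        field_simp
      rw [hC₂, h2]
      have h3 : 1 ≤ chat P / c₁ := by rw [le_div_iff₀ hc₁]; linarith
      have h4 : 0 ≤ 1 + A := by rw [hA]; linarith
      nlinarith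
    · rw [div_le_iff₀ (by positivity)]
      exact (min_le_left _ _).trans (le_mul_of_one_le_right (by positivity) hk6)

end Pool.Agent.V5helper58.TW
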